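import Pool.Agent.Lib.MP_3e612f_nt.ZE.Defs

/-! Chebyshev bounds for the number of primes in `(P, 4P]`. -/

set_option autoImplicit false

namespace Pool.Agent.Lib.MP_3e612f_nt.ZE

open Finset MeasureTheory Filter Topology

private theorem cheb_split (P : ℕ) : Chebyshev.theta ((4 * P : ℕ) : ℝ) =
    Chebyshev.theta (P : ℝ) + ∑ p ∈ PP P, Real.log p := by
  have h1 : (Ioc 0 (4 * P)).filter Nat.Prime = (Ioc 0 P).filter Nat.Prime ∪ PP P := by
    ext p
    simp only [PP, mem_union, mem_filter, mem_Ioc]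
    constructor
    · rintro ⟨⟨h0, h4⟩, hp⟩
      by_cases h : p ≤ P
      · exact Or.inl ⟨⟨h0, h⟩, hp⟩
      · exact Or.inr ⟨⟨by omega, h4⟩, hp⟩
    · rintro (⟨⟨h0, h4⟩, hp⟩ | ⟨⟨h0, h4⟩, hp⟩)
      · exact ⟨⟨h0, by omega⟩, hp⟩
      · exact ⟨⟨by omega, h4⟩, hp⟩
  have h2 : Disjoint ((Ioc 0 P).filter Nat.Prime) (PP P) := by
    rw [Finset.disjoint_left]
    intro p hp hq
    simp only [PP, mem_filter, mem_Ioc] at hp hq
    omega
  rw [Chebyshev.theta, Chebyshev.theta, Nat.floor_natCast, Nat.floor_natCast, h1,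
    Finset.sum_union h2]

private theorem cheb_log (x : ℝ) (hx : 1 ≤ x) : Real.log x ≤ 4 * √(√x) := by
  have h0 : 0 < √(√x) := Real.sqrt_pos.2 (Real.sqrt_pos.2 (by linarith))
  have h1 : Real.log x = 4 * Real.log (√(√x)) := by
    rw [Real.log_sqrt (Real.sqrt_nonneg x), Real.log_sqrt (by linarith)]
    ring
  rw [h1]
  have := Real.log_le_sub_one_of_pos h0
  linarith

/-- `θ(4P) - θ(P) ≥ 4P log 2 - log(4P+1) - 2 √(4P) log (4P) - P log 4 ≥ P` for `P` large (`Chebyshev.theta_ge`, `Chebyshev.theta_le_log4_mul_x`), each prime contributes at most `log (4P) ≤ 2 log P` -/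
theorem card_PP_ge : ∃ P₀ : ℕ, 16 ≤ P₀ ∧ ∀ P ≥ P₀, (P : ℝ) / (2 * Real.log P) ≤ ((PP P).card : ℝ) := by
  refine ⟨10 ^ 9, by norm_num, fun P hP => ?_⟩
  have hP' : (10 : ℝ) ^ 9 ≤ P := by exact_mod_cast hP
  have hP0 : (0 : ℝ) < P := by linarith [show (0 : ℝ) < 10 ^ 9 by norm_num]
  have hlogP : 0 < Real.log P := Real.log_pos (by linarith [show (1 : ℝ) < 10 ^ 9 by norm_num])
  have h4 : ((4 * P : ℕ) : ℝ) = 4 * P := by push_cast; ring
  set x : ℝ := 4 * P with hx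
  have hx1 : (4 : ℝ) * 10 ^ 9 ≤ x := by rw [hx]; linarith
  have hx0 : 1 ≤ x := by linarith [show (1 : ℝ) < 4 * 10 ^ 9 by norm_num]
  set u : ℝ := √(√x) with hu
  have hu2 : √x = u ^ 2 := (Real.sq_sqrt (Real.sqrt_nonneg x)).symm
  have hu4 : x = u ^ 4 := by
    rw [show u ^ 4 = (u ^ 2) ^ 2 by ring, ← hu2, Real.sq_sqrt (by linarith)]
  have hu0 : 0 ≤ u := Real.sqrt_nonneg _
  have hu200 : 200 ≤ u := by
    by_contra hlt
    push Not at hlt
    have h1 : u ^ 4 < 200 ^ 4 := pow_lt_pow_left₀ hlt hu0 (by norm_num)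
    rw [← hu4] at h1
    have h2 : (200 : ℝ) ^ 4 ≤ 4 * 10 ^ 9 := by norm_num
    linarith
  have hlogx : Real.log x ≤ 4 * u := cheb_log x hx0
  have hlogx1 : Real.log (x + 1) ≤ 5 * u := by
    have h1 : Real.log (x + 1) ≤ Real.log (2 * x) :=
      Real.log_le_log (by linarith) (by linarith)
    rw [Real.log_mul (by norm_num) (by linarith)] at h1
    have h2 := Real.log_two_lt_d9
    linarith
  have hsplit := cheb_split P
  have hge := Chebyshev.theta_ge (4 * P)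
  have hle := Chebyshev.theta_le_log4_mul_x (x := (P : ℝ)) hP0.le
  have hl4 : Real.log 4 = 2 * Real.log 2 := by
    rw [show (4 : ℝ) = 2 ^ 2 by norm_num, Real.log_pow]
    norm_num
  rw [h4] at hge hsplit
  rw [hl4] at hle
  have hl2 := Real.log_two_gt_d9
  have hsum_ge : (P : ℝ) ≤ ∑ p ∈ PP P, Real.log p := by
    have h1 : ∑ p ∈ PP P, Real.log p = Chebyshev.theta x - Chebyshev.theta P := by linarith
    have h2 : 2 * √x * Real.log x ≤ 8 * u ^ 3 := by
      rw [hu2]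
      calc 2 * u ^ 2 * Real.log x ≤ 2 * u ^ 2 * (4 * u) := by gcongr
        _ = 8 * u ^ 3 := by ring
    have h3 : 8 * u ^ 3 + 5 * u ≤ (5 / 100) * x := by
      rw [hu4]
      nlinarith [mul_nonneg (pow_nonneg hu0 3) (sub_nonneg.2 hu200), pow_nonneg hu0 3,
        mul_nonneg hu0 (sub_nonneg.2 hu200), pow_nonneg hu0 2,
        mul_nonneg (pow_nonneg hu0 2) (sub_nonneg.2 hu200)]
    have h5 : (P : ℝ) = x / 4 := by rw [hx]; ring
    rw [h1]
    have h6 : 2 * Real.log 2 * (P : ℝ) = x / 4 * (2 * Real.log 2) := by rw [h5]; ring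
    have h7 : x * Real.log 2 - x / 4 * (2 * Real.log 2) = x * (Real.log 2 / 2) := by ring
    have h8 : x * (0.34 : ℝ) ≤ x * (Real.log 2 / 2) := by
      apply mul_le_mul_of_nonneg_left _ (by linarith)
      linarith
    linarith
  have hsum_le : ∑ p ∈ PP P, Real.log p ≤ ((PP P).card : ℝ) * (2 * Real.log P) := by
    rw [← nsmul_eq_mul]
    apply Finset.sum_le_card_nsmul
    intro p hp
    simp only [PP, mem_filter, mem_Ioc] at hp
    have hp0 : (0 : ℝ) < p := by exact_mod_cast hp.2.pos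
    have hp4 : (p : ℝ) ≤ (P : ℝ) ^ 2 := by
      have h1 : (p : ℝ) ≤ 4 * P := by exact_mod_cast hp.1.2
      nlinarith [show (4 : ℝ) ≤ 10 ^ 9 by norm_num]
    calc Real.log p ≤ Real.log ((P : ℝ) ^ 2) := Real.log_le_log hp0 hp4
      _ = 2 * Real.log P := by rw [Real.log_pow]; norm_num
  rw [div_le_iff₀ (by positivity)]
  linarith

/-- `θ(4P) ≤ 4P log 4`, each prime in `(P, 4P]` contributes at least `log P` -/
theorem card_PP_le (P : ℕ) (hP : 2 ≤ P) : ((PP P).card : ℝ) ≤ 6 * P / Real.log P := by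
  have hP' : (2 : ℝ) ≤ P := by exact_mod_cast hP
  have hlogP : 0 < Real.log P := Real.log_pos (by linarith)
  rw [le_div_iff₀ hlogP]
  have h4 : ((4 * P : ℕ) : ℝ) = 4 * P := by push_cast; ring
  have hsplit := cheb_split P
  have h0 := Chebyshev.theta_nonneg (P : ℝ)
  have hle := Chebyshev.theta_le_log4_mul_x (x := ((4 * P : ℕ) : ℝ)) (by positivity)
  have hl4 : Real.log 4 = 2 * Real.log 2 := by
    rw [show (4 : ℝ) = 2 ^ 2 by norm_num, Real.log_pow]
    norm_num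
  have hl2 := Real.log_two_lt_d9
  have hsum : ((PP P).card : ℝ) * Real.log P ≤ ∑ p ∈ PP P, Real.log p := by
    rw [← nsmul_eq_mul]
    apply Finset.card_nsmul_le_sum
    intro p hp
    simp only [PP, mem_filter, mem_Ioc] at hp
    exact Real.log_le_log (by linarith) (by exact_mod_cast hp.1.1.le)
  rw [hl4] at hle
  rw [h4] at hle hsplit
  nlinarith

theorem PP_nonempty : ∃ P₀ : ℕ, ∀ P ≥ P₀, (PP P).Nonempty := by
  obtain ⟨P₀, h16, h⟩ := card_PP_ge
  refine ⟨P₀, fun P hP => ?_⟩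
  have h1 := h P hP
  have hP' : (16 : ℝ) ≤ P := by exact_mod_cast h16.trans hP
  have hlogP : 0 < Real.log P := Real.log_pos (by linarith)
  have h2 : (0 : ℝ) < (P : ℝ) / (2 * Real.log P) := by positivity
  have h3 : (0 : ℝ) < ((PP P).card : ℝ) := lt_of_lt_of_le h2 h1
  exact Finset.card_pos.1 (by exact_mod_cast h3)

end Pool.Agent.Lib.MP_3e612f_nt.ZE
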