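import Pool.Agent.Lib.MP_3e612f_nt.ZE.Defs

/-! Mean values of the singular factors. -/

set_option autoImplicit false

namespace Pool.Agent.Lib.MP_3e612f_nt.ZE

open Finset MeasureTheory Filter Topology

/-- `∏_{p ∣ n} (1 + M/p)` -/
noncomputable def Gs (M n : ℕ) : ℝ := ∏ p ∈ n.primeFactors, (1 + (M : ℝ) / p)

theorem one_le_Gs (M n : ℕ) : 1 ≤ Gs M n := by
  unfold Gs
  calc (1 : ℝ) = ∏ _p ∈ n.primeFactors, (1 : ℝ) := Finset.prod_const_one.symm
    _ ≤ _ := Finset.prod_le_prod (fun _ _ => zero_le_one) fun p _ => by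
        have : (0 : ℝ) ≤ (M : ℝ) / p := by positivity
        linarith

/-- `(1 + M/p)^K ≤ 1 + M'/p`, e.g. `M' = K M (1+M)^K` -/
theorem Gs_pow (M K : ℕ) : ∃ M' : ℕ, ∀ n : ℕ, (Gs M n) ^ K ≤ Gs M' n := by
  have key : ∀ (x : ℝ), 0 ≤ x → x ≤ 1 → ∀ K : ℕ,
      (1 + (M : ℝ) * x) ^ K ≤ 1 + ((1 + (M : ℝ)) ^ K - 1) * x := by
    intro x h0 h1 K
    have hM : (0 : ℝ) ≤ M := Nat.cast_nonneg M
    induction K with
    | zero => simp
    | succ K ih =>
      have hA : (1 : ℝ) ≤ (1 + (M : ℝ)) ^ K := one_le_pow₀ (by linarith)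
      have h2 : 0 ≤ 1 + (M : ℝ) * x := by positivity
      have h3 : (M : ℝ) * ((1 + (M : ℝ)) ^ K - 1) * (x * x) ≤ (M : ℝ) * ((1 + (M : ℝ)) ^ K - 1) * x :=
        mul_le_mul_of_nonneg_left (mul_le_of_le_one_right h0 h1)
          (mul_nonneg hM (by linarith))
      rw [pow_succ, pow_succ]
      calc (1 + (M : ℝ) * x) ^ K * (1 + (M : ℝ) * x)
          ≤ (1 + ((1 + (M : ℝ)) ^ K - 1) * x) * (1 + (M : ℝ) * x) :=
            mul_le_mul_of_nonneg_right ih h2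
        _ = 1 + ((1 + (M : ℝ)) ^ K - 1) * x + M * x + (M : ℝ) * ((1 + (M : ℝ)) ^ K - 1) * (x * x) := by
            ring
        _ ≤ 1 + ((1 + (M : ℝ)) ^ K - 1) * x + M * x + (M : ℝ) * ((1 + (M : ℝ)) ^ K - 1) * x := by
            linarith
        _ = 1 + ((1 + (M : ℝ)) ^ K * (1 + (M : ℝ)) - 1) * x := by ring
  refine ⟨(1 + M) ^ K, fun n => ?_⟩
  unfold Gs
  rw [← Finset.prod_pow]
  refine Finset.prod_le_prod (fun p _ => by positivity) fun p hp => ?_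
  have hp1 : (1 : ℝ) ≤ p := by exact_mod_cast (Nat.prime_of_mem_primeFactors hp).one_le
  have h1 : (p : ℝ)⁻¹ ≤ 1 := inv_le_one_of_one_le₀ hp1
  have h0 : (0 : ℝ) ≤ (p : ℝ)⁻¹ := by positivity
  have h2 := key (p : ℝ)⁻¹ h0 h1 K
  rw [div_eq_mul_inv, div_eq_mul_inv]
  push_cast
  linarith

/-- `Gs M v = ∑_{d ∣ v, d squarefree} M^{ω(d)}/d`, so the sum is `≤ V ∑_{d ≤ V} μ²(d) M^{ω(d)}/d² ≤ V ∏_{p ≤ V} (1 + M/p²) ≤ V exp(M ∑ 1/n²)`. (Induction over the primes `≤ V` or `Nat.divisors` of the primorial.) -/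
theorem Gs_mean (M : ℕ) : ∃ C : ℝ, 0 < C ∧ ∀ V : ℕ, ∑ v ∈ Ioc 0 V, Gs M v ≤ C * V := by
  classical
  refine ⟨Real.exp (M * ∑' n : ℕ, 1 / (n : ℝ) ^ 2), Real.exp_pos _, fun V => ?_⟩
  have hs : Summable fun n : ℕ => 1 / (n : ℝ) ^ 2 := Real.summable_one_div_nat_pow.2 (by norm_num)
  obtain ⟨T, hT⟩ : ∃ T : Finset ℕ, T = (range (V + 1)).filter Nat.Prime := ⟨_, rfl⟩
  have hTp : ∀ p ∈ T, p.Prime := by
    intro p hp
    rw [hT] at hp
    exact (Finset.mem_filter.1 hp).2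
  -- the divisor sum
  have h1 : ∀ v ∈ Ioc 0 V, Gs M v = ∑ S ∈ T.powerset, ∏ p ∈ S, (if p ∣ v then (M : ℝ) / p else 0) := by
    intro v hv
    obtain ⟨hv0, hvV⟩ := Finset.mem_Ioc.1 hv
    rw [← Finset.prod_one_add]
    have hsub : v.primeFactors ⊆ T := by
      intro p hp
      rw [hT, Finset.mem_filter, Finset.mem_range]
      have := Nat.le_of_mem_primeFactors hp
      exact ⟨by omega, Nat.prime_of_mem_primeFactors hp⟩
    unfold Gs
    rw [← Finset.prod_subset hsub]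
    · refine Finset.prod_congr rfl fun p hp => ?_
      rw [if_pos (Nat.dvd_of_mem_primeFactors hp)]
    · intro p hp hpv
      rw [if_neg, add_zero]
      intro h
      exact hpv (Nat.mem_primeFactors.2 ⟨hTp p hp, h, by omega⟩)
  rw [Finset.sum_congr rfl h1, Finset.sum_comm]
  -- the sum for one divisor
  have h2 : ∀ S ∈ T.powerset, ∑ v ∈ Ioc 0 V, ∏ p ∈ S, (if p ∣ v then (M : ℝ) / p else 0) ≤
      V * ∏ p ∈ S, (M : ℝ) / (p : ℝ) ^ 2 := by
    intro S hS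
    have hS' := Finset.mem_powerset.1 hS
    have hSp : ∀ p ∈ S, p.Prime := fun p hp => hTp p (hS' hp)
    have h3 : ∀ v : ℕ, ∏ p ∈ S, (if p ∣ v then (M : ℝ) / p else 0) =
        if (∏ p ∈ S, p) ∣ v then ∏ p ∈ S, (M : ℝ) / p else 0 := by
      intro v
      by_cases h : ∀ p ∈ S, p ∣ v
      · rw [if_pos (Finset.prod_primes_dvd v (fun p hp => (hSp p hp).prime) h)]
        exact Finset.prod_congr rfl fun p hp => if_pos (h p hp)
      · push Not at h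
        obtain ⟨p, hp, hpv⟩ := h
        rw [if_neg fun h' => hpv ((Finset.dvd_prod_of_mem _ hp).trans h'),
          Finset.prod_eq_zero hp (if_neg hpv)]
    simp only [h3]
    rw [← Finset.sum_filter, Finset.sum_const, Nat.Ioc_filter_dvd_card_eq_div, nsmul_eq_mul]
    have h4 : ((V / ∏ p ∈ S, p : ℕ) : ℝ) ≤ V / ∏ p ∈ S, (p : ℝ) := by
      have h5 : ((V / ∏ p ∈ S, p : ℕ) : ℝ) ≤ (V : ℝ) / ((∏ p ∈ S, p : ℕ) : ℝ) := Nat.cast_div_le
      rwa [Nat.cast_prod] at h5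
    have h6 : 0 ≤ ∏ p ∈ S, (M : ℝ) / p := Finset.prod_nonneg fun p _ => by positivity
    refine (mul_le_mul_of_nonneg_right h4 h6).trans (le_of_eq ?_)
    rw [div_mul_eq_mul_div, mul_div_assoc, ← Finset.prod_div_distrib]
    congr 1
    refine Finset.prod_congr rfl fun p _ => ?_
    rw [div_div, sq]
  refine (Finset.sum_le_sum h2).trans ?_
  rw [← Finset.mul_sum, ← Finset.prod_one_add, mul_comm]
  refine mul_le_mul_of_nonneg_right ?_ (Nat.cast_nonneg V)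
  calc ∏ p ∈ T, (1 + (M : ℝ) / (p : ℝ) ^ 2) ≤ ∏ p ∈ T, Real.exp ((M : ℝ) / (p : ℝ) ^ 2) := by
        refine Finset.prod_le_prod (fun p _ => by positivity) fun p _ => ?_
        rw [add_comm]
        exact Real.add_one_le_exp _
    _ = Real.exp (∑ p ∈ T, (M : ℝ) / (p : ℝ) ^ 2) := (Real.exp_sum _ _).symm
    _ ≤ Real.exp (M * ∑' n : ℕ, 1 / (n : ℝ) ^ 2) := by
        refine Real.exp_le_exp.2 ?_
        have h3 : ∑ p ∈ T, (M : ℝ) / (p : ℝ) ^ 2 = M * ∑ p ∈ T, 1 / (p : ℝ) ^ 2 := by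
          rw [Finset.mul_sum]
          exact Finset.sum_congr rfl fun p _ => by ring
        rw [h3]
        exact mul_le_mul_of_nonneg_left (hs.sum_le_tsum T fun n _ => by positivity)
          (Nat.cast_nonneg M)

end Pool.Agent.Lib.MP_3e612f_nt.ZE
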