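import Pool.Agent.Lib.MP_3e612f_nt.ZE.Defs

/-! The energies `al` unrolled. -/

set_option autoImplicit false

namespace Pool.Agent.Lib.MP_3e612f_nt.ZE

open Finset MeasureTheory Filter Topology

/-- the `2^k` shifts belonging to `k` pairs -/
def shifts : List (ℕ × ℕ) → List ℕ
  | [] => [0]
  | q :: hs => (shifts hs).map (fun s => s + q.1) ++ (shifts hs).map (fun s => s + q.2)

/-- average over lists of `k` pairs of numbers `< H` -/
noncomputable def avk (H : ℕ) : ℕ → (List (ℕ × ℕ) → ℝ) → ℝ
  | 0, F => F []
  | k + 1, F => (∑ a ∈ range H, ∑ b ∈ range H, avk H k (fun hs => F ((a, b) :: hs))) / (H : ℝ) ^ 2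

theorem length_shifts (hs : List (ℕ × ℕ)) : (shifts hs).length = 2 ^ hs.length := by
  induction hs with
  | nil => rfl
  | cons q hs ih =>
    rw [shifts, List.length_append, List.length_map, List.length_map, ih, List.length_cons,
      pow_succ]
    ring

theorem shifts_le (H : ℕ) (hs : List (ℕ × ℕ)) (h : ∀ q ∈ hs, q.1 < H ∧ q.2 < H) : ∀ s ∈ shifts hs, s ≤ hs.length * H := by
  induction hs with
  | nil =>
    intro s hs
    rw [shifts, List.mem_singleton] at hs
    rw [hs]
    exact Nat.zero_le _
  | cons q hs ih =>
    intro s hs'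
    have h1 := ih fun q' hq' => h q' (List.mem_cons_of_mem _ hq')
    have h2 := h q List.mem_cons_self
    rw [shifts, List.mem_append, List.mem_map, List.mem_map] at hs'
    rw [List.length_cons, add_mul, one_mul]
    rcases hs' with ⟨t, ht, rfl⟩ | ⟨t, ht, rfl⟩
    · have := h1 t ht
      omega
    · have := h1 t ht
      omega

theorem avk_mono (H k : ℕ) (F G : List (ℕ × ℕ) → ℝ) (h : ∀ hs : List (ℕ × ℕ), hs.length = k → (∀ q ∈ hs, q.1 < H ∧ q.2 < H) → F hs ≤ G hs) :
    avk H k F ≤ avk H k G := by
  induction k generalizing F G with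
  | zero => exact h [] rfl (by simp)
  | succ k ih =>
    rw [avk, avk]
    refine div_le_div_of_nonneg_right ?_ (by positivity)
    refine sum_le_sum fun a ha => sum_le_sum fun b hb => ih _ _ fun hs hl hq => ?_
    refine h _ (by rw [List.length_cons, hl]) fun q hq' => ?_
    rcases List.mem_cons.1 hq' with rfl | h3
    · exact ⟨mem_range.1 ha, mem_range.1 hb⟩
    · exact hq q h3

theorem avk_add (H k : ℕ) (F G : List (ℕ × ℕ) → ℝ) : avk H k (fun hs => F hs + G hs) = avk H k F + avk H k G := by
  induction k generalizing F G with
  | zero => rfl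
  | succ k ih =>
    rw [avk, avk, avk, ← add_div, ← sum_add_distrib]
    congr 1
    refine sum_congr rfl fun a _ => ?_
    rw [← sum_add_distrib]
    exact sum_congr rfl fun b _ => ih (fun hs => F ((a, b) :: hs)) (fun hs => G ((a, b) :: hs))

theorem avk_smul (H k : ℕ) (c : ℝ) (F : List (ℕ × ℕ) → ℝ) : avk H k (fun hs => c * F hs) = c * avk H k F := by
  induction k generalizing F with
  | zero => rfl
  | succ k ih =>
    rw [avk, avk, ← mul_div_assoc, mul_sum]
    congr 1
    refine sum_congr rfl fun a _ => ?_
    rw [mul_sum]
    exact sum_congr rfl fun b _ => ih (fun hs => F ((a, b) :: hs))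

theorem avk_sum {ι : Type} (H k : ℕ) (s : Finset ι) (F : ι → List (ℕ × ℕ) → ℝ) : avk H k (fun hs => ∑ i ∈ s, F i hs) = ∑ i ∈ s, avk H k (F i) := by
  classical
  induction s using Finset.induction_on with
  | empty =>
    have h := avk_smul H k 0 (fun _ => 0)
    rw [zero_mul] at h
    simp only [sum_empty]
    simpa using h
  | insert i s hi ih =>
    rw [sum_insert hi, ← ih, ← avk_add]
    congr 1
    funext hs
    rw [sum_insert hi]

theorem avk_const (H k : ℕ) (hH : 1 ≤ H) (c : ℝ) : avk H k (fun _ => c) = c := by
  induction k with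
  | zero => rfl
  | succ k ih =>
    have h0 : (H : ℝ) ≠ 0 := by positivity
    rw [avk]
    simp only [ih, sum_const, card_range, nsmul_eq_mul]
    field_simp

/-- `∏_{s ∈ shifts hs} A(m+s+a) A(m+s+b) = ∏_{s ∈ shifts ((a,b)::hs)} A(m+s)` -/
theorem al_eq (Q H k : ℕ) (A : ℕ → ℝ) :
    al Q H k A = avk H k (fun hs => ((∑ m ∈ range Q, ((shifts hs).map fun s => A (m + s)).prod) / (Q : ℝ)) ^ 2) := by
  induction k generalizing A with
  | zero => simp [al, avk, shifts]
  | succ k ih =>
    rw [al, avk]
    congr 1
    refine sum_congr rfl fun a _ => sum_congr rfl fun b _ => ?_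
    rw [ih]
    congr 1
    funext hs
    congr 2
    refine sum_congr rfl fun m _ => ?_
    rw [shifts, List.map_append, List.prod_append, List.map_map, List.map_map,
      List.prod_map_mul]
    congr 1
    · refine congrArg List.prod (List.map_congr_left fun s _ => ?_)
      rw [Function.comp_apply, add_assoc]
    · refine congrArg List.prod (List.map_congr_left fun s _ => ?_)
      rw [Function.comp_apply, add_assoc]

private theorem shift_getD (L : List ℕ) (a i : ℕ) (h : i < L.length) :
    (L.map (fun s => s + a)).getD i 0 = L.getD i 0 + a := by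
  rw [List.getD_eq_getElem _ _ (by rwa [List.length_map]), List.getD_eq_getElem _ _ h,
    List.getElem_map]

private theorem shift_avk_le (H k : ℕ) (hH : 1 ≤ H) (F : List (ℕ × ℕ) → ℝ) (c : ℝ)
    (h : ∀ a < H, ∀ b < H, avk H k (fun hs => F ((a, b) :: hs)) ≤ c) : avk H (k + 1) F ≤ c := by
  have h0 : (0 : ℝ) < (H : ℝ) := by exact_mod_cast hH
  rw [avk, div_le_iff₀ (by positivity)]
  calc ∑ a ∈ range H, ∑ b ∈ range H, avk H k (fun hs => F ((a, b) :: hs))
      ≤ ∑ a ∈ range H, ∑ b ∈ range H, c :=
        sum_le_sum fun a ha => sum_le_sum fun b hb => h a (mem_range.1 ha) b (mem_range.1 hb)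
    _ = c * (H : ℝ) ^ 2 := by
        simp only [sum_const, card_range, nsmul_eq_mul]
        ring

/-- For two different places `i < j` the difference of the shifts takes each value with probability at most `1/H`: induction on `k`; if both places are in the same half use the induction hypothesis, otherwise for fixed `b` and `hs` at most one `a` is possible. -/
theorem avk_diff (H k : ℕ) (hH : 1 ≤ H) (i j : ℕ) (hij : i < j) (hj : j < 2 ^ k) (v : ℤ) :
    avk H k (fun hs => if ((shifts hs).getD i 0 : ℤ) - ((shifts hs).getD j 0 : ℤ) = v then 1 else 0) ≤ 1 / (H : ℝ) := by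
  induction k generalizing i j with
  | zero =>
    rw [pow_zero] at hj
    omega
  | succ k ih =>
    have h2k : 2 ^ (k + 1) = 2 ^ k + 2 ^ k := by
      rw [pow_succ]
      ring
    rcases Nat.lt_or_ge j (2 ^ k) with hj1 | hj1
    · refine shift_avk_le H k hH _ _ fun a _ b _ => ?_
      refine le_trans (avk_mono H k _ _ fun hs hl _ => le_of_eq ?_) (ih i j hij hj1)
      have hL : (shifts hs).length = 2 ^ k := by rw [length_shifts, hl]
      rw [shifts, List.getD_append _ _ _ _ (by rw [List.length_map, hL]; omega),
        List.getD_append _ _ _ _ (by rw [List.length_map, hL]; omega),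
        shift_getD _ _ _ (by omega), shift_getD _ _ _ (by omega)]
      congr 1
      apply propext
      push_cast
      constructor
      · intro h3
        linarith
      · intro h3
        linarith
    · rcases Nat.lt_or_ge i (2 ^ k) with hi1 | hi1
      · have h0 : (0 : ℝ) < (H : ℝ) := by exact_mod_cast hH
        rw [avk, div_le_iff₀ (by positivity), sum_comm]
        have h3 : 1 / (H : ℝ) * (H : ℝ) ^ 2 = ∑ b ∈ range H, (1 : ℝ) := by
          rw [sum_const, card_range, nsmul_eq_mul]
          field_simp
        rw [h3]
        refine sum_le_sum fun b _ => ?_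
        rw [← avk_sum]
        refine le_trans (avk_mono H k _ (fun _ => 1) fun hs hl _ => ?_) (avk_const H k hH 1).le
        have hL : (shifts hs).length = 2 ^ k := by rw [length_shifts, hl]
        rw [sum_ite, sum_const_zero, add_zero, sum_const, nsmul_eq_mul, mul_one]
        have h4 : (filter (fun a => ((shifts ((a, b) :: hs)).getD i 0 : ℤ) -
            ((shifts ((a, b) :: hs)).getD j 0 : ℤ) = v) (range H)).card ≤ 1 := by
          rw [card_le_one]
          intro a ha a' ha'
          have h5 := (mem_filter.1 ha).2
          have h6 := (mem_filter.1 ha').2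
          rw [shifts, List.getD_append _ _ _ _ (by rw [List.length_map, hL]; omega),
            List.getD_append_right _ _ _ _ (by rw [List.length_map, hL]; omega),
            List.length_map, hL, shift_getD _ _ _ (by omega),
            shift_getD _ _ _ (by omega)] at h5 h6
          push_cast at h5 h6
          omega
        exact_mod_cast h4
      · refine shift_avk_le H k hH _ _ fun a _ b _ => ?_
        refine le_trans (avk_mono H k _ _ fun hs hl _ => le_of_eq ?_)
          (ih (i - 2 ^ k) (j - 2 ^ k) (by omega) (by omega))
        have hL : (shifts hs).length = 2 ^ k := by rw [length_shifts, hl]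
        rw [shifts, List.getD_append_right _ _ _ _ (by rw [List.length_map, hL]; omega),
          List.getD_append_right _ _ _ _ (by rw [List.length_map, hL]; omega),
          List.length_map, hL, shift_getD _ _ _ (by omega), shift_getD _ _ _ (by omega)]
        congr 1
        apply propext
        push_cast
        constructor
        · intro h3
          linarith
        · intro h3
          linarith

end Pool.Agent.Lib.MP_3e612f_nt.ZE
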