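import Pool.Agent.Lib.MP_3e612f_nt.ZE.B.Tup
import Pool.Agent.Lib.MP_3e612f_nt.ZE.B.Shift

/-! Theorem B: the energies of the primes are bounded. -/

set_option autoImplicit false

namespace Pool.Agent.Lib.MP_3e612f_nt.ZE

open Finset MeasureTheory Filter Topology

private theorem zem_log (n : ℕ) : ∃ P₀ : ℕ, ∀ P ≥ P₀, 1 ≤ Nat.sqrt P ∧ 1 ≤ P ∧
    (Real.log P) ^ n ≤ 2 ^ n * (2 * (Nat.sqrt P : ℝ)) := by
  have h := (Real.isLittleO_pow_log_id_atTop (n := n)).def one_pos
  obtain ⟨x₀, hx⟩ := eventually_atTop.1 h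
  refine ⟨⌈x₀⌉₊ ^ 2 + 1, fun P hP => ?_⟩
  obtain ⟨H, hH⟩ : ∃ H, H = Nat.sqrt P := ⟨_, rfl⟩
  have h1 : P < (H + 1) ^ 2 := by
    rw [hH]
    exact Nat.lt_succ_sqrt' P
  have h2 : 1 ≤ H := by
    rw [hH]
    exact Nat.sqrt_pos.2 (by omega)
  have h3 : ⌈x₀⌉₊ < H + 1 := by
    have h4 : ⌈x₀⌉₊ ^ 2 < (H + 1) ^ 2 := by omega
    exact lt_of_pow_lt_pow_left₀ 2 (by omega) h4
  have h4 : x₀ ≤ ((H + 1 : ℕ) : ℝ) := (Nat.le_ceil x₀).trans (by exact_mod_cast h3.le)
  have h5 := hx _ h4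
  have h6 : 0 ≤ Real.log ((H + 1 : ℕ) : ℝ) := Real.log_natCast_nonneg _
  rw [Real.norm_eq_abs, abs_of_nonneg (pow_nonneg h6 n), one_mul, id, Real.norm_eq_abs,
    abs_of_nonneg (Nat.cast_nonneg _)] at h5
  have hP1 : 1 ≤ P := by omega
  have h7 : Real.log P ≤ 2 * Real.log ((H + 1 : ℕ) : ℝ) := by
    have h8 : ((2 : ℕ) : ℝ) * Real.log ((H + 1 : ℕ) : ℝ) = Real.log (((H + 1 : ℕ) : ℝ) ^ 2) :=
      (Real.log_pow _ _).symm
    have h9 : Real.log P ≤ Real.log (((H + 1 : ℕ) : ℝ) ^ 2) := by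
      refine Real.log_le_log (by exact_mod_cast hP1) ?_
      exact_mod_cast h1.le
    rw [← h8] at h9
    exact_mod_cast h9
  refine ⟨by rw [← hH]; exact h2, hP1, ?_⟩
  rw [← hH]
  calc (Real.log P) ^ n ≤ (2 * Real.log ((H + 1 : ℕ) : ℝ)) ^ n :=
        pow_le_pow_left₀ (Real.log_natCast_nonneg P) h7 n
    _ = 2 ^ n * (Real.log ((H + 1 : ℕ) : ℝ)) ^ n := mul_pow _ _ _
    _ ≤ 2 ^ n * ((H + 1 : ℕ) : ℝ) := mul_le_mul_of_nonneg_left h5 (by positivity)
    _ ≤ 2 ^ n * (2 * (H : ℝ)) := by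
        refine mul_le_mul_of_nonneg_left ?_ (by positivity)
        have h10 : (1 : ℝ) ≤ H := by exact_mod_cast h2
        push_cast
        linarith

/-- the product of the weights -/
private theorem zem_prod (P m : ℕ) (L : List ℕ) : (L.map fun s => wtp P (m + s)).prod =
    if ∀ s ∈ L, m + s ∈ PP P then (Real.log P) ^ L.length else 0 := by
  induction L with
  | nil => simp
  | cons a L ih =>
    rw [List.map_cons, List.prod_cons, ih, wtp, List.length_cons, pow_succ]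
    by_cases h1 : m + a ∈ PP P
    · by_cases h2 : ∀ s ∈ L, m + s ∈ PP P
      · have h3 : ∀ s ∈ a :: L, m + s ∈ PP P := fun s hs =>
          (List.mem_cons.1 hs).elim (fun h => by rw [h]; exact h1) (h2 s)
        rw [if_pos h1, if_pos h2, if_pos h3, mul_comm]
      · have h3 : ¬ ∀ s ∈ a :: L, m + s ∈ PP P := fun h =>
          h2 fun s hs => h s (List.mem_cons_of_mem a hs)
        rw [if_neg h2, if_neg h3, mul_zero]
    · have h3 : ¬ ∀ s ∈ a :: L, m + s ∈ PP P := fun h => h1 (h a List.mem_cons_self)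
      rw [if_neg h1, if_neg h3, zero_mul]

private theorem zem_sum (P Q : ℕ) (L : List ℕ) :
    ∑ m ∈ range Q, (L.map fun s => wtp P (m + s)).prod =
      (Real.log P) ^ L.length * (((range Q).filter fun m => ∀ s ∈ L, m + s ∈ PP P).card : ℝ) := by
  rw [Finset.sum_congr rfl fun m _ => zem_prod P m L, ← Finset.sum_filter, Finset.sum_const,
    nsmul_eq_mul, mul_comm]

/-- a product of numbers `≥ 1` -/
private theorem zem_pp {α : Type} (T : Finset α) (a : α → ℝ) (ha : ∀ x ∈ T, 1 ≤ a x) (n : ℕ)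
    (hn : T.card ≤ n) : ∏ x ∈ T, a x ≤ 1 + ∑ x ∈ T, (a x) ^ n := by
  rcases T.eq_empty_or_nonempty with rfl | hT
  · simp
  · obtain ⟨b, hb, hmax⟩ := Finset.exists_max_image T a hT
    have h1 : ∏ x ∈ T, a x ≤ (a b) ^ T.card := by
      rw [← Finset.prod_const]
      exact Finset.prod_le_prod (fun x hx => zero_le_one.trans (ha x hx)) fun x hx => hmax x hx
    have h2 : (a b) ^ T.card ≤ (a b) ^ n := pow_le_pow_right₀ (ha b hb) hn
    have h3 : (a b) ^ n ≤ ∑ x ∈ T, (a x) ^ n :=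
      Finset.single_le_sum (f := fun x => (a x) ^ n)
        (fun x hx => pow_nonneg (zero_le_one.trans (ha x hx)) n) hb
    linarith

/-- the pairs of places -/
private def zeI (t : ℕ) : Finset (ℕ × ℕ) := (range t ×ˢ range t).filter fun q => q.1 < q.2

/-- the value at a pair of places -/
private noncomputable def zeE (g : ℕ → ℝ) (L : List ℕ) (q : ℕ × ℕ) : ℝ :=
  if L.getD q.1 0 = L.getD q.2 0 then 0
  else g (((L.getD q.1 0 : ℤ) - (L.getD q.2 0 : ℤ)).natAbs)

private theorem zem_pairs (g : ℕ → ℝ) (hg : ∀ n, 0 ≤ g n) (L : List ℕ) :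
    ∑ q ∈ (L.toFinset ×ˢ L.toFinset).filter (fun q => q.1 < q.2), g (q.2 - q.1) ≤
      ∑ q ∈ zeI L.length, zeE g L q := by
  classical
  have hex : ∀ q : ℕ × ℕ, q ∈ (L.toFinset ×ˢ L.toFinset).filter (fun q => q.1 < q.2) →
      ∃ i ∈ zeI L.length, (min (L.getD i.1 0) (L.getD i.2 0), max (L.getD i.1 0) (L.getD i.2 0)) =
        q := by
    intro q hq
    obtain ⟨hq1, hq2⟩ := mem_filter.1 hq
    obtain ⟨h1, h2⟩ := mem_product.1 hq1
    obtain ⟨i, hi, hi'⟩ := List.mem_iff_getElem.1 (List.mem_toFinset.1 h1)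
    obtain ⟨j, hj, hj'⟩ := List.mem_iff_getElem.1 (List.mem_toFinset.1 h2)
    have e1 : L.getD i 0 = q.1 := by rw [List.getD_eq_getElem _ _ hi, hi']
    have e2 : L.getD j 0 = q.2 := by rw [List.getD_eq_getElem _ _ hj, hj']
    rcases lt_trichotomy i j with h | h | h
    · refine ⟨(i, j), ?_, ?_⟩
      · exact mem_filter.2 ⟨mem_product.2 ⟨mem_range.2 hi, mem_range.2 hj⟩, h⟩
      · dsimp only
        rw [e1, e2, min_eq_left hq2.le, max_eq_right hq2.le]
    · subst h
      rw [e1] at e2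
      omega
    · refine ⟨(j, i), ?_, ?_⟩
      · exact mem_filter.2 ⟨mem_product.2 ⟨mem_range.2 hj, mem_range.2 hi⟩, h⟩
      · dsimp only
        rw [e1, e2, min_eq_right hq2.le, max_eq_left hq2.le]
  choose! e he hfe using hex
  have hval : ∀ q ∈ (L.toFinset ×ˢ L.toFinset).filter (fun q => q.1 < q.2),
      g (q.2 - q.1) = zeE g L (e q) := by
    intro q hq
    have h1 := hfe q hq
    have h2 := (mem_filter.1 hq).2
    have h3 : min (L.getD (e q).1 0) (L.getD (e q).2 0) = q.1 := congrArg Prod.fst h1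
    have h4 : max (L.getD (e q).1 0) (L.getD (e q).2 0) = q.2 := congrArg Prod.snd h1
    unfold zeE
    have h5 : L.getD (e q).1 0 ≠ L.getD (e q).2 0 := by
      intro h
      rw [h, min_self] at h3
      rw [h, max_self] at h4
      omega
    rw [if_neg h5]
    congr 1
    omega
  rw [Finset.sum_congr rfl hval]
  have hinj : ∀ q ∈ (L.toFinset ×ˢ L.toFinset).filter (fun q => q.1 < q.2),
      ∀ q' ∈ (L.toFinset ×ˢ L.toFinset).filter (fun q => q.1 < q.2), e q = e q' → q = q' := by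
    intro q hq q' hq' h
    rw [← hfe q hq, ← hfe q' hq', h]
  rw [← Finset.sum_image hinj]
  refine Finset.sum_le_sum_of_subset_of_nonneg ?_ fun i _ _ => ?_
  · intro i hi
    obtain ⟨q, hq, rfl⟩ := mem_image.1 hi
    exact he q hq
  · unfold zeE
    split_ifs
    · exact le_rfl
    · exact hg _

/-- the average at a pair of places -/
private theorem zem_avk (M k H : ℕ) (hH : 1 ≤ H) (C : ℝ)
    (hC : ∀ V : ℕ, ∑ v ∈ Ioc 0 V, Gs M v ≤ C * V) (q : ℕ × ℕ) (hq : q ∈ zeI (2 ^ k)) :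
    avk H k (fun hs => zeE (Gs M) (shifts hs) q) ≤ 2 * C * k := by
  classical
  obtain ⟨hq1, hq2⟩ := mem_filter.1 hq
  obtain ⟨h1, h2⟩ := mem_product.1 hq1
  rw [mem_range] at h1 h2
  have hH0 : (0 : ℝ) < H := by exact_mod_cast hH
  have hG : ∀ n, 0 ≤ Gs M n := fun n => zero_le_one.trans (one_le_Gs M n)
  have h3 : avk H k (fun hs => zeE (Gs M) (shifts hs) q) ≤
      avk H k (fun hs => ∑ v ∈ Ioc 0 (k * H), Gs M v *
        ((if ((shifts hs).getD q.1 0 : ℤ) - ((shifts hs).getD q.2 0 : ℤ) = (v : ℤ) then 1 else 0) +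
         (if ((shifts hs).getD q.1 0 : ℤ) - ((shifts hs).getD q.2 0 : ℤ) = -(v : ℤ) then 1
          else 0))) := by
    refine avk_mono H k _ _ fun hs hl hb => ?_
    have hterm : ∀ v ∈ Ioc 0 (k * H), 0 ≤ Gs M v *
        ((if ((shifts hs).getD q.1 0 : ℤ) - ((shifts hs).getD q.2 0 : ℤ) = (v : ℤ) then (1 : ℝ)
          else 0) +
         (if ((shifts hs).getD q.1 0 : ℤ) - ((shifts hs).getD q.2 0 : ℤ) = -(v : ℤ) then 1
          else 0)) := by
      intro v _
      refine mul_nonneg (hG v) (add_nonneg ?_ ?_) <;> split_ifs <;> norm_num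
    by_cases h4 : (shifts hs).getD q.1 0 = (shifts hs).getD q.2 0
    · rw [zeE, if_pos h4]
      exact Finset.sum_nonneg hterm
    · rw [zeE, if_neg h4]
      have hle : ∀ i, (shifts hs).getD i 0 ≤ k * H := by
        intro i
        by_cases hi : i < (shifts hs).length
        · rw [List.getD_eq_getElem _ _ hi, ← hl]
          exact shifts_le H hs hb _ (List.getElem_mem hi)
        · rw [List.getD_eq_default _ _ (by omega)]
          exact Nat.zero_le _
      have h5 := hle q.1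
      have h6 := hle q.2
      obtain ⟨v, hv⟩ : ∃ v : ℕ, v =
        (((shifts hs).getD q.1 0 : ℤ) - ((shifts hs).getD q.2 0 : ℤ)).natAbs := ⟨_, rfl⟩
      have hvm : v ∈ Ioc 0 (k * H) := by
        rw [mem_Ioc]
        omega
      rw [← hv]
      refine le_trans ?_ (Finset.single_le_sum hterm hvm)
      have h7 : (((shifts hs).getD q.1 0 : ℤ) - ((shifts hs).getD q.2 0 : ℤ) = (v : ℤ)) ∨
          (((shifts hs).getD q.1 0 : ℤ) - ((shifts hs).getD q.2 0 : ℤ) = -(v : ℤ)) := by omega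
      have h8 : (1 : ℝ) ≤ (if ((shifts hs).getD q.1 0 : ℤ) - ((shifts hs).getD q.2 0 : ℤ) = (v : ℤ)
          then (1 : ℝ) else 0) +
         (if ((shifts hs).getD q.1 0 : ℤ) - ((shifts hs).getD q.2 0 : ℤ) = -(v : ℤ) then 1
          else 0) := by
        rcases h7 with h7 | h7
        · rw [if_pos h7]
          split_ifs <;> norm_num
        · rw [if_pos h7]
          split_ifs <;> norm_num
      calc Gs M v = Gs M v * 1 := (mul_one _).symm
        _ ≤ _ := mul_le_mul_of_nonneg_left h8 (hG v)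
  refine h3.trans ?_
  rw [avk_sum]
  have h4 : ∀ v ∈ Ioc 0 (k * H), avk H k (fun hs => Gs M v *
        ((if ((shifts hs).getD q.1 0 : ℤ) - ((shifts hs).getD q.2 0 : ℤ) = (v : ℤ) then 1 else 0) +
         (if ((shifts hs).getD q.1 0 : ℤ) - ((shifts hs).getD q.2 0 : ℤ) = -(v : ℤ) then 1
          else 0))) ≤ Gs M v * (2 / H) := by
    intro v _
    rw [avk_smul, avk_add]
    refine mul_le_mul_of_nonneg_left ?_ (hG v)
    have h5 := avk_diff H k hH q.1 q.2 hq2 h2 (v : ℤ)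
    have h6 := avk_diff H k hH q.1 q.2 hq2 h2 (-(v : ℤ))
    have h7 : (2 : ℝ) / H = 1 / H + 1 / H := by ring
    rw [h7]
    exact add_le_add h5 h6
  refine (Finset.sum_le_sum h4).trans ?_
  rw [← Finset.sum_mul]
  have h5 := hC (k * H)
  push_cast at h5
  calc (∑ v ∈ Ioc 0 (k * H), Gs M v) * (2 / H) ≤ (C * (k * H)) * (2 / H) :=
        mul_le_mul_of_nonneg_right h5 (by positivity)
    _ = 2 * C * k := by
        field_simp

private theorem zem_card (t : ℕ) : (zeI t).card ≤ t * t := by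
  unfold zeI
  refine (Finset.card_filter_le _ _).trans ?_
  rw [card_product, card_range]

/-- `t = 2^k`, `al_eq`. If `shifts hs` has no duplicates: `(1/Q) ∑_m ∏ wtp(m+s) ≤ (log P)^t/(4P) * tuple_count ≤ C ∏_{pairs} Gs M (difference)`, and the product over the (at most `t²`) pairs is at most the sum over the pairs of the `t²`-th powers (all factors are `≥ 1`). For a pair of places `i < j`:
`avk (1[L_i ≠ L_j] Gs(|L_i - L_j|)^{2t²}) ≤ ∑_{0<|v|≤kH} (1/H) Gs(|v|)^{2t²} ≤ C` (`avk_diff`, `Gs_pow`, `Gs_mean`, `shifts_le`). If there are duplicates: trivial bound `(log P)^{2t}` (the sum over `m` has at most `Q` terms), the average of the indicator is at most `t²/H`, `H = ⌊√P⌋`. -/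
theorem al_le (k : ℕ) : ∃ (C : ℝ) (P₀ : ℕ), 0 < C ∧ ∀ P ≥ P₀, al (4 * P + 1) (Nat.sqrt P) k (wtp P) ≤ C := by
  classical
  obtain ⟨t, ht⟩ : ∃ t, t = 2 ^ k := ⟨_, rfl⟩
  have ht1 : 1 ≤ t := by
    rw [ht]
    exact Nat.one_le_two_pow
  obtain ⟨C₁, M, P₁, hC₁, hT⟩ := tuple_count t ht1
  obtain ⟨M', hM'⟩ := Gs_pow M (2 * (t * t))
  obtain ⟨C₃, hC₃, hG⟩ := Gs_mean M'
  obtain ⟨P₂, hP₂⟩ := zem_log (2 * t)
  refine ⟨C₁ ^ 2 * (1 + (t * t : ℕ) * (2 * C₃ * k)) + 2 ^ (2 * t) * 2 * (t * t : ℕ), max P₁ P₂,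
    by positivity, fun P hP => ?_⟩
  obtain ⟨hH, hP1, hlog⟩ := hP₂ P ((le_max_right _ _).trans hP)
  have hT' := hT P ((le_max_left _ _).trans hP)
  obtain ⟨H, hHe⟩ : ∃ H, H = Nat.sqrt P := ⟨_, rfl⟩
  rw [← hHe] at hH hlog ⊢
  have hH0 : (0 : ℝ) < H := by exact_mod_cast hH
  have hP0 : (1 : ℝ) ≤ P := by exact_mod_cast hP1
  have hl0 : 0 ≤ Real.log P := Real.log_natCast_nonneg P
  have hG0 : ∀ n, 0 ≤ Gs M' n := fun n => zero_le_one.trans (one_le_Gs M' n)
  rw [al_eq]
  -- the pointwise bound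
  have hpt : ∀ hs : List (ℕ × ℕ), hs.length = k → (∀ q ∈ hs, q.1 < H ∧ q.2 < H) →
      ((∑ m ∈ range (4 * P + 1), ((shifts hs).map fun s => wtp P (m + s)).prod) /
        ((4 * P + 1 : ℕ) : ℝ)) ^ 2 ≤
      C₁ ^ 2 * (1 + ∑ q ∈ zeI t, zeE (Gs M') (shifts hs) q) +
        (Real.log P) ^ (2 * t) * ∑ q ∈ zeI t,
          (if ((shifts hs).getD q.1 0 : ℤ) - ((shifts hs).getD q.2 0 : ℤ) = 0 then 1 else 0) := by
    intro hs hl _
    obtain ⟨L, hL⟩ : ∃ L, L = shifts hs := ⟨_, rfl⟩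
    rw [← hL]
    have hLt : L.length = t := by rw [hL, length_shifts, hl, ht]
    rw [zem_sum, hLt]
    have hE : 0 ≤ ∑ q ∈ zeI t, zeE (Gs M') L q := Finset.sum_nonneg fun q _ => by
      unfold zeE
      split_ifs
      · exact le_rfl
      · exact hG0 _
    have hZ : 0 ≤ ∑ q ∈ zeI t, (if (L.getD q.1 0 : ℤ) - (L.getD q.2 0 : ℤ) = 0 then (1 : ℝ)
        else 0) := Finset.sum_nonneg fun q _ => by split_ifs <;> norm_num
    have hlt : 0 ≤ (Real.log P) ^ (2 * t) := pow_nonneg hl0 _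
    by_cases hnd : L.Nodup
    · have h1 : ((range (4 * P + 1)).filter fun m => ∀ s ∈ L, m + s ∈ PP P) =
          (range (4 * P + 1)).filter fun m => ∀ s ∈ L.toFinset, m + s ∈ PP P := by
        refine Finset.filter_congr fun m _ => ?_
        simp only [List.mem_toFinset]
      have h2 := hT' L.toFinset (by rw [List.toFinset_card_of_nodup hnd, hLt])
      rw [h1]
      obtain ⟨N, hN⟩ : ∃ N : ℝ, N = (((range (4 * P + 1)).filter fun m =>
        ∀ s ∈ L.toFinset, m + s ∈ PP P).card : ℝ) := ⟨_, rfl⟩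
      obtain ⟨G, hGe⟩ : ∃ G : ℝ, G = ∏ q ∈ (L.toFinset ×ˢ L.toFinset).filter
        (fun q => q.1 < q.2), Gs M (q.2 - q.1) := ⟨_, rfl⟩
      rw [← hN, ← hGe] at h2
      rw [← hN]
      have hN0 : 0 ≤ N := by
        rw [hN]
        exact Nat.cast_nonneg _
      have hG1 : 0 ≤ G := by
        rw [hGe]
        exact Finset.prod_nonneg fun q _ => zero_le_one.trans (one_le_Gs _ _)
      have h3 : (Real.log P) ^ t * N ≤ C₁ * P * G := by
        rcases eq_or_lt_of_le hl0 with h0 | h0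
        · rw [← h0, zero_pow (by omega), zero_mul]
          positivity
        · have h4 : 0 < (Real.log P) ^ t := pow_pos h0 t
          calc (Real.log P) ^ t * N ≤ (Real.log P) ^ t * (C₁ * P / (Real.log P) ^ t * G) :=
                mul_le_mul_of_nonneg_left h2 h4.le
            _ = C₁ * P * G := by
                field_simp
      have h5 : (Real.log P) ^ t * N / ((4 * P + 1 : ℕ) : ℝ) ≤ C₁ * G := by
        rw [div_le_iff₀ (by positivity)]
        refine h3.trans ?_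
        push_cast
        have h6 : 0 ≤ C₁ * G := mul_nonneg hC₁.le hG1
        nlinarith
      have h6 : 0 ≤ (Real.log P) ^ t * N / ((4 * P + 1 : ℕ) : ℝ) := by positivity
      have h7 : G ^ 2 ≤ 1 + ∑ q ∈ zeI t, zeE (Gs M') L q := by
        rw [hGe, ← Finset.prod_pow]
        refine (zem_pp _ (fun q : ℕ × ℕ => Gs M (q.2 - q.1) ^ 2)
          (fun q _ => one_le_pow₀ (one_le_Gs _ _)) (t * t) ?_).trans ?_
        · refine (Finset.card_filter_le _ _).trans ?_
          rw [card_product, List.toFinset_card_of_nodup hnd, hLt]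
        · refine add_le_add le_rfl ?_
          have h8 : ∀ q ∈ (L.toFinset ×ˢ L.toFinset).filter (fun q => q.1 < q.2),
              (Gs M (q.2 - q.1) ^ 2) ^ (t * t) ≤ Gs M' (q.2 - q.1) := by
            intro q _
            rw [← pow_mul]
            exact hM' _
          refine (Finset.sum_le_sum h8).trans ?_
          have h9 := zem_pairs (Gs M') hG0 L
          rw [hLt] at h9
          exact h9
      calc ((Real.log P) ^ t * N / ((4 * P + 1 : ℕ) : ℝ)) ^ 2 ≤ (C₁ * G) ^ 2 :=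
            pow_le_pow_left₀ h6 h5 2
        _ = C₁ ^ 2 * G ^ 2 := mul_pow _ _ _
        _ ≤ C₁ ^ 2 * (1 + ∑ q ∈ zeI t, zeE (Gs M') L q) :=
            mul_le_mul_of_nonneg_left h7 (by positivity)
        _ ≤ _ := le_add_of_nonneg_right (mul_nonneg hlt hZ)
    · have h1 : (((range (4 * P + 1)).filter fun m => ∀ s ∈ L, m + s ∈ PP P).card : ℝ) ≤
          ((4 * P + 1 : ℕ) : ℝ) := by
        have h2 := Finset.card_filter_le (range (4 * P + 1)) fun m => ∀ s ∈ L, m + s ∈ PP P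
        rw [card_range] at h2
        exact_mod_cast h2
      have h2 : (Real.log P) ^ t * (((range (4 * P + 1)).filter fun m =>
          ∀ s ∈ L, m + s ∈ PP P).card : ℝ) / ((4 * P + 1 : ℕ) : ℝ) ≤ (Real.log P) ^ t := by
        rw [div_le_iff₀ (by positivity)]
        exact mul_le_mul_of_nonneg_left h1 (pow_nonneg hl0 t)
      have h3 : 0 ≤ (Real.log P) ^ t * (((range (4 * P + 1)).filter fun m =>
          ∀ s ∈ L, m + s ∈ PP P).card : ℝ) / ((4 * P + 1 : ℕ) : ℝ) := by positivity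
      have h4 : (1 : ℝ) ≤ ∑ q ∈ zeI t, (if (L.getD q.1 0 : ℤ) - (L.getD q.2 0 : ℤ) = 0 then
          (1 : ℝ) else 0) := by
        rw [List.Nodup, List.pairwise_iff_getElem] at hnd
        push Not at hnd
        obtain ⟨i, j, hi, hj, hij, he⟩ := hnd
        have h5 : (i, j) ∈ zeI t := by
          refine mem_filter.2 ⟨mem_product.2 ⟨mem_range.2 ?_, mem_range.2 ?_⟩, hij⟩
          · rw [← hLt]
            exact hi
          · rw [← hLt]
            exact hj
        refine le_trans (le_of_eq ?_) (Finset.single_le_sum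
          (f := fun q : ℕ × ℕ => if (L.getD q.1 0 : ℤ) - (L.getD q.2 0 : ℤ) = 0 then (1 : ℝ) else 0)
          (fun q _ => by split_ifs <;> norm_num) h5)
        rw [if_pos]
        rw [List.getD_eq_getElem _ _ hi, List.getD_eq_getElem _ _ hj, he, sub_self]
      calc ((Real.log P) ^ t * (((range (4 * P + 1)).filter fun m =>
          ∀ s ∈ L, m + s ∈ PP P).card : ℝ) / ((4 * P + 1 : ℕ) : ℝ)) ^ 2 ≤
            ((Real.log P) ^ t) ^ 2 := pow_le_pow_left₀ h3 h2 2
        _ = (Real.log P) ^ (2 * t) * 1 := by rw [← pow_mul, mul_comm t 2, mul_one]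
        _ ≤ (Real.log P) ^ (2 * t) * _ := mul_le_mul_of_nonneg_left h4 hlt
        _ ≤ _ := le_add_of_nonneg_left (mul_nonneg (by positivity) (by linarith))
  refine (avk_mono H k _ _ hpt).trans ?_
  rw [avk_add, avk_smul, avk_smul, avk_add, avk_const H k hH, avk_sum, avk_sum]
  have hA : ∑ q ∈ zeI t, avk H k (fun hs => zeE (Gs M') (shifts hs) q) ≤
      (t * t : ℕ) * (2 * C₃ * k) := by
    have h1 : ∀ q ∈ zeI t, avk H k (fun hs => zeE (Gs M') (shifts hs) q) ≤ 2 * C₃ * k := by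
      intro q hq
      rw [ht] at hq
      exact zem_avk M' k H hH C₃ hG q hq
    refine (Finset.sum_le_sum h1).trans ?_
    rw [Finset.sum_const, nsmul_eq_mul]
    exact mul_le_mul_of_nonneg_right (by exact_mod_cast zem_card t) (by positivity)
  have hB : ∑ q ∈ zeI t, avk H k (fun hs =>
      if ((shifts hs).getD q.1 0 : ℤ) - ((shifts hs).getD q.2 0 : ℤ) = 0 then 1 else 0) ≤
      (t * t : ℕ) * (1 / H) := by
    have h1 : ∀ q ∈ zeI t, avk H k (fun hs =>
        if ((shifts hs).getD q.1 0 : ℤ) - ((shifts hs).getD q.2 0 : ℤ) = 0 then 1 else 0) ≤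
        1 / (H : ℝ) := by
      intro q hq
      obtain ⟨hq1, hq2⟩ := mem_filter.1 hq
      obtain ⟨-, h2⟩ := mem_product.1 hq1
      rw [mem_range, ht] at h2
      exact avk_diff H k hH q.1 q.2 hq2 h2 0
    refine (Finset.sum_le_sum h1).trans ?_
    rw [Finset.sum_const, nsmul_eq_mul]
    exact mul_le_mul_of_nonneg_right (by exact_mod_cast zem_card t) (by positivity)
  refine add_le_add (mul_le_mul_of_nonneg_left (add_le_add le_rfl hA) (by positivity)) ?_
  calc (Real.log P) ^ (2 * t) * _ ≤ (2 ^ (2 * t) * (2 * H)) * ((t * t : ℕ) * (1 / H)) :=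
        mul_le_mul hlog hB (Finset.sum_nonneg fun q _ => ?_) (by positivity)
    _ = 2 ^ (2 * t) * 2 * (t * t : ℕ) := by
        field_simp
  have h1 := avk_mono H k (fun _ => (0 : ℝ)) (fun hs =>
    if ((shifts hs).getD q.1 0 : ℤ) - ((shifts hs).getD q.2 0 : ℤ) = 0 then 1 else 0)
    fun hs _ _ => by split_ifs <;> norm_num
  rwa [avk_const H k hH] at h1

end Pool.Agent.Lib.MP_3e612f_nt.ZE
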