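import Pool.Agent.Lib.MP_3e612f_nt.ZE.B.SieveD
import Pool.Agent.Lib.MP_629a14_nt.Rob.Mert
import Pool.Agent.Lib.MP_629a14_nt.Rob.VBound

/-! Lower bound for Selberg's sum in dimension `t` (Rankin's trick) and the Mertens product. -/

set_option autoImplicit false

namespace Pool.Agent.Lib.MP_3e612f_nt.ZE

open Finset MeasureTheory Filter Topology

private theorem rank_sum (Q : Finset ℕ) (hQ : ∀ p ∈ Q, p.Prime) (f : ℕ → ℝ) :
    ∏ p ∈ Q, (1 + f p) = ∑ l ∈ (∏ p ∈ Q, p).divisors, ∏ p ∈ l.primeFactors, f p := by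
  have hsq : Squarefree (∏ p ∈ Q, p) := by
    refine Finset.squarefree_prod_of_pairwise_isCoprime (fun p hp q hq hpq => ?_)
      (fun p hp => (hQ p hp).squarefree)
    exact Nat.coprime_iff_isRelPrime.1 ((Nat.coprime_primes (hQ p hp) (hQ q hq)).2 hpq)
  have hpf : (∏ p ∈ Q, p).primeFactors = Q := Nat.primeFactors_prod hQ
  have h := (ArithmeticFunction.IsMultiplicative.prodPrimeFactors
    f).prodPrimeFactors_one_add_of_squarefree hsq
  rw [hpf] at h
  have h1 : ∏ p ∈ Q, (1 + f p) = ∏ p ∈ Q, (1 + ArithmeticFunction.prodPrimeFactors f p) := by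
    refine prod_congr rfl fun p hp => ?_
    rw [ArithmeticFunction.prodPrimeFactors_apply (hQ p hp).ne_zero, (hQ p hp).primeFactors,
      prod_singleton]
  rw [h1, h]
  refine sum_congr rfl fun l hl => ?_
  rw [ArithmeticFunction.prodPrimeFactors_apply (Nat.pos_of_mem_divisors hl).ne']

private theorem rank_exp {x : ℝ} (h0 : 0 ≤ x) (h1 : x ≤ 1) : Real.exp x - 1 ≤ 2 * x := by
  have h := (abs_le.1 (Real.abs_exp_sub_one_sub_id_le (abs_le.2 ⟨by linarith, h1⟩))).2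
  nlinarith

private theorem rank_mono {s u : Finset ℕ} (h : s ⊆ u) (f : ℕ → ℝ) (hf : ∀ i ∈ u, 1 ≤ f i) :
    ∏ i ∈ s, f i ≤ ∏ i ∈ u, f i := by
  rw [← Finset.prod_sdiff h]
  have h1 : (1 : ℝ) ≤ ∏ i ∈ u \ s, f i := by
    have h2 : ∏ i ∈ u \ s, (1 : ℝ) ≤ ∏ i ∈ u \ s, f i :=
      Finset.prod_le_prod (fun _ _ => zero_le_one) fun i hi => hf i (mem_sdiff.1 hi).1
    rwa [prod_const_one] at h2
  have h3 : 0 ≤ ∏ i ∈ s, f i :=
    Finset.prod_nonneg fun i hi => zero_le_one.trans (hf i (h hi))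
  nlinarith

private theorem rank_one_le (s : Finset ℕ) (f : ℕ → ℝ) (hf : ∀ i ∈ s, 1 ≤ f i) :
    1 ≤ ∏ i ∈ s, f i := by
  have h := rank_mono (empty_subset s) f hf
  rwa [prod_empty] at h

private theorem rank_biUnion {ι : Type} [DecidableEq ι] (A : Finset ι) (D : ι → Finset ℕ)
    (f : ℕ → ℝ) (hf : ∀ p, 1 ≤ f p) :
    ∏ p ∈ A.biUnion D, f p ≤ ∏ q ∈ A, ∏ p ∈ D q, f p := by
  induction A using Finset.induction_on with
  | empty => rw [biUnion_empty, prod_empty, prod_empty]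
  | insert a A ha ih =>
    rw [biUnion_insert, prod_insert ha]
    have h1 := Finset.prod_union_inter (s₁ := D a) (s₂ := A.biUnion D) (f := f)
    have h2 := rank_one_le (D a ∩ A.biUnion D) f (fun i _ => hf i)
    have h3 := rank_one_le (D a ∪ A.biUnion D) f (fun i _ => hf i)
    have h4 := rank_one_le (D a) f (fun i _ => hf i)
    calc ∏ p ∈ D a ∪ A.biUnion D, f p
        ≤ (∏ p ∈ D a ∪ A.biUnion D, f p) * ∏ p ∈ D a ∩ A.biUnion D, f p :=
          le_mul_of_one_le_right (zero_le_one.trans h3) h2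
      _ = (∏ p ∈ D a, f p) * ∏ p ∈ A.biUnion D, f p := h1
      _ ≤ _ := mul_le_mul_of_nonneg_left ih (zero_le_one.trans h4)

/-- Rankin: with `δ = 1/log Y`, `∑_{l ∣ P} g(l) 1_{l > R} ≤ R^{-δ} ∏_{p ∣ P} (1 + g(p) p^δ) ≤ R^{-δ} exp(∑ g(p)(p^δ - 1)) ∏ (1+g(p))`, `p^δ - 1 ≤ e δ log p`, `g(p) ≤ T/p`, `∑_{p ≤ Y} (log p)/p ≤ log Y + C` (Mertens; `MP_629a14_nt.Rob.rankin` is the case `g(p) = 1/(p-1)`). -/
theorem rankin_t (T : ℝ) (hT : 0 < T) : ∃ s : ℕ, 1 ≤ s ∧ ∀ (Y : ℕ) (_ : 2 ≤ Y) (Q : Finset ℕ) (_ : ∀ p ∈ Q, p.Prime ∧ p ≤ Y) (g : ℕ → ℝ) (_ : ∀ p ∈ Q, 0 ≤ g p ∧ g p ≤ T / p),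
    (∏ p ∈ Q, (1 + g p)) / 2 ≤ ∑ l ∈ (∏ p ∈ Q, p).divisors.filter (fun l => l ≤ Y ^ s), ∏ p ∈ l.primeFactors, g p := by
  refine ⟨⌈22 * T⌉₊ + 1, Nat.le_add_left _ _, ?_⟩
  intro Y hY Q hQ g hg
  set s : ℕ := ⌈22 * T⌉₊ + 1 with hs
  have hs1 : 22 * T + 1 ≤ (s : ℝ) := by
    rw [hs]
    push_cast
    have := Nat.le_ceil (22 * T)
    linarith
  have hQp : ∀ p ∈ Q, p.Prime := fun p hp => (hQ p hp).1
  have hY2 : (2 : ℝ) ≤ Y := by exact_mod_cast hY
  have hY0 : (0 : ℝ) < Y := by linarith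
  have hlY : 0 < Real.log Y := Real.log_pos (by linarith)
  set δ : ℝ := 1 / Real.log Y with hδ
  have hδ0 : 0 < δ := by positivity
  have hsq : Squarefree (∏ p ∈ Q, p) := by
    refine Finset.squarefree_prod_of_pairwise_isCoprime (fun p hp q hq hpq => ?_)
      (fun p hp => (hQp p hp).squarefree)
    exact Nat.coprime_iff_isRelPrime.1 ((Nat.coprime_primes (hQp p hp) (hQp q hq)).2 hpq)
  have hpf : (∏ p ∈ Q, p).primeFactors = Q := Nat.primeFactors_prod hQp
  have hsub : ∀ l ∈ (∏ p ∈ Q, p).divisors, l.primeFactors ⊆ Q := by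
    intro l hl
    have h1 := Nat.primeFactors_mono (Nat.dvd_of_mem_divisors hl) hsq.ne_zero
    rwa [hpf] at h1
  have hG0 : 0 < ∏ p ∈ Q, (1 + g p) := prod_pos fun p hp => by
    have := (hg p hp).1
    linarith
  have htail : ∑ l ∈ (∏ p ∈ Q, p).divisors.filter (fun l => ¬ l ≤ Y ^ s),
      ∏ p ∈ l.primeFactors, g p ≤ (∏ p ∈ Q, (1 + g p)) / 2 := by
    have hRδ : ((Y ^ s : ℕ) : ℝ) ^ δ = Real.exp s := by
      have h1 : (0 : ℝ) < ((Y ^ s : ℕ) : ℝ) := by
        rw [Nat.cast_pow]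
        positivity
      rw [Real.rpow_def_of_pos h1, Nat.cast_pow, Real.log_pow, hδ]
      congr 1
      field_simp
    have h1 : ∑ l ∈ (∏ p ∈ Q, p).divisors.filter (fun l => ¬ l ≤ Y ^ s),
        ∏ p ∈ l.primeFactors, g p ≤ ∑ l ∈ (∏ p ∈ Q, p).divisors,
          Real.exp (-(s : ℝ)) * ∏ p ∈ l.primeFactors, ((p : ℝ) ^ δ * g p) := by
      have hnn : ∀ l ∈ (∏ p ∈ Q, p).divisors, 0 ≤ ∏ p ∈ l.primeFactors, g p := fun l hl =>
        prod_nonneg fun p hp => (hg p (hsub l hl hp)).1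
      have hnn' : ∀ l ∈ (∏ p ∈ Q, p).divisors,
          0 ≤ ∏ p ∈ l.primeFactors, ((p : ℝ) ^ δ * g p) := fun l hl =>
        prod_nonneg fun p hp => mul_nonneg (Real.rpow_nonneg (Nat.cast_nonneg p) δ)
          (hg p (hsub l hl hp)).1
      calc _ ≤ ∑ l ∈ (∏ p ∈ Q, p).divisors.filter (fun l => ¬ l ≤ Y ^ s),
            Real.exp (-(s : ℝ)) * ∏ p ∈ l.primeFactors, ((p : ℝ) ^ δ * g p) := by
            apply sum_le_sum
            intro l hl
            obtain ⟨hl1, hl2⟩ := mem_filter.1 hl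
            have hl3 : ((Y ^ s : ℕ) : ℝ) ≤ l := by exact_mod_cast (by omega : Y ^ s ≤ l)
            have hl4 : ((Y ^ s : ℕ) : ℝ) ^ δ ≤ (l : ℝ) ^ δ :=
              Real.rpow_le_rpow (Nat.cast_nonneg _) hl3 hδ0.le
            rw [hRδ] at hl4
            have hlsq : Squarefree l := hsq.squarefree_of_dvd (Nat.dvd_of_mem_divisors hl1)
            have hl5 : ∏ p ∈ l.primeFactors, (p : ℝ) ^ δ = (l : ℝ) ^ δ := by
              rw [Real.finsetProd_rpow _ _ (fun i _ => Nat.cast_nonneg i), ← Nat.cast_prod,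
                Nat.prod_primeFactors_of_squarefree hlsq]
            rw [prod_mul_distrib, hl5, ← mul_assoc]
            have h5 : 1 ≤ Real.exp (-(s : ℝ)) * (l : ℝ) ^ δ := by
              rw [Real.exp_neg, inv_mul_eq_div, le_div_iff₀ (Real.exp_pos _), one_mul]
              exact hl4
            exact le_mul_of_one_le_left (hnn l hl1) h5
        _ ≤ _ := by
            apply sum_le_sum_of_subset_of_nonneg (filter_subset _ _)
            intro l hl _
            exact mul_nonneg (Real.exp_pos _).le (hnn' l hl)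
    rw [← mul_sum, ← rank_sum Q hQp] at h1
    have h2 : ∏ p ∈ Q, (1 + (p : ℝ) ^ δ * g p) ≤
        ∏ p ∈ Q, (Real.exp (2 * T * δ * (Real.log p / p)) * (1 + g p)) := by
      apply Finset.prod_le_prod
      · intro p hp
        have := mul_nonneg (Real.rpow_nonneg (Nat.cast_nonneg p) δ) (hg p hp).1
        linarith
      · intro p hp
        have hp2 : (2 : ℝ) ≤ p := by exact_mod_cast (hQp p hp).two_le
        have hp0 : (0 : ℝ) < p := by linarith
        have hlp : 0 ≤ Real.log p := Real.log_nonneg (by linarith)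
        have hlpY : Real.log p ≤ Real.log Y :=
          Real.log_le_log hp0 (by exact_mod_cast (hQ p hp).2)
        have hx0 : 0 ≤ Real.log p * δ := by positivity
        have hx1 : Real.log p * δ ≤ 1 := by
          rw [hδ, mul_one_div, div_le_one hlY]
          exact hlpY
        obtain ⟨hg0, hg1⟩ := hg p hp
        have h4 : (p : ℝ) ^ δ - 1 ≤ 2 * (Real.log p * δ) := by
          rw [Real.rpow_def_of_pos hp0]
          exact rank_exp hx0 hx1
        have h5 : 0 ≤ (p : ℝ) ^ δ - 1 := by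
          rw [Real.rpow_def_of_pos hp0, sub_nonneg]
          exact Real.one_le_exp hx0
        have h6 : g p * ((p : ℝ) ^ δ - 1) ≤ 2 * T * δ * (Real.log p / p) := by
          calc g p * ((p : ℝ) ^ δ - 1) ≤ T / p * (2 * (Real.log p * δ)) :=
                mul_le_mul hg1 h4 h5 (by positivity)
            _ = 2 * T * δ * (Real.log p / p) := by ring
        have h7 : 1 + g p * ((p : ℝ) ^ δ - 1) ≤ Real.exp (2 * T * δ * (Real.log p / p)) := by
          have := Real.add_one_le_exp (2 * T * δ * (Real.log p / p))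
          linarith
        calc 1 + (p : ℝ) ^ δ * g p ≤ (1 + g p * ((p : ℝ) ^ δ - 1)) * (1 + g p) := by
              nlinarith [mul_nonneg hg0 (mul_nonneg hg0 h5)]
          _ ≤ _ := mul_le_mul_of_nonneg_right h7 (by linarith)
    rw [prod_mul_distrib, ← Real.exp_sum, ← mul_sum] at h2
    have h3 : ∑ p ∈ Q, Real.log p / p ≤ Real.log ((Y + 1 : ℕ) : ℝ) + 6 := by
      refine le_trans ?_ (Pool.Agent.Lib.MP_629a14_nt.Rob.mert (Y + 1) (by omega))
      apply sum_le_sum_of_subset_of_nonneg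
      · intro p hp
        rw [mem_filter, mem_range]
        exact ⟨Nat.lt_succ_of_le (hQ p hp).2, hQp p hp⟩
      · intro p hp _
        have : (1 : ℝ) ≤ p := by exact_mod_cast (mem_filter.1 hp).2.one_lt.le
        exact div_nonneg (Real.log_nonneg this) (by linarith)
    have h4 : Real.log ((Y + 1 : ℕ) : ℝ) ≤ 2 * Real.log Y := by
      have h5 : (2 : ℝ) * Real.log Y = Real.log ((Y : ℝ) ^ 2) := by
        rw [Real.log_pow]
        norm_num
      rw [h5]
      push_cast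
      apply Real.log_le_log (by linarith)
      nlinarith
    have h5 : (0.6931471803 : ℝ) < Real.log 2 := Real.log_two_gt_d9
    have h6 : Real.log 2 ≤ Real.log Y := Real.log_le_log (by norm_num) hY2
    have h7 : 2 * T * δ * ∑ p ∈ Q, Real.log p / p ≤ 22 * T := by
      calc 2 * T * δ * ∑ p ∈ Q, Real.log p / p ≤ 2 * T * δ * (11 * Real.log Y) :=
            mul_le_mul_of_nonneg_left (by linarith) (by positivity)
        _ = 22 * T := by
            rw [hδ]
            field_simp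
            ring
    have h8 : Real.exp (-(s : ℝ)) * Real.exp (2 * T * δ * ∑ p ∈ Q, Real.log p / p) ≤ 1 / 2 := by
      rw [← Real.exp_add]
      calc Real.exp (-(s : ℝ) + 2 * T * δ * ∑ p ∈ Q, Real.log p / p) ≤ Real.exp (-1) :=
            Real.exp_le_exp.2 (by linarith)
        _ ≤ 1 / 2 := by
            rw [Real.exp_neg, ← one_div]
            apply one_div_le_one_div_of_le (by norm_num)
            have := Real.exp_one_gt_d9
            linarith
    calc _ ≤ Real.exp (-(s : ℝ)) * ∏ p ∈ Q, (1 + (p : ℝ) ^ δ * g p) := h1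
      _ ≤ Real.exp (-(s : ℝ)) * (Real.exp (2 * T * δ * ∑ p ∈ Q, Real.log p / p) *
          ∏ p ∈ Q, (1 + g p)) := mul_le_mul_of_nonneg_left h2 (Real.exp_pos _).le
      _ = (Real.exp (-(s : ℝ)) * Real.exp (2 * T * δ * ∑ p ∈ Q, Real.log p / p)) *
          ∏ p ∈ Q, (1 + g p) := by ring
      _ ≤ 1 / 2 * ∏ p ∈ Q, (1 + g p) := mul_le_mul_of_nonneg_right h8 hG0.le
      _ = _ := by ring
  have hsplit := sum_filter_add_sum_filter_not (∏ p ∈ Q, p).divisors (fun l => l ≤ Y ^ s)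
    (fun l => ∏ p ∈ l.primeFactors, g p)
  rw [← rank_sum Q hQp] at hsplit
  linarith

private theorem rank_pow {x : ℝ} (h0 : 0 ≤ x) (h1 : x ≤ 1) (t : ℕ) :
    (1 + x) ^ t ≤ 1 + (2 ^ t - 1) * x := by
  induction t with
  | zero => simp
  | succ t ih =>
    have h2 : (1 : ℝ) ≤ 2 ^ t := one_le_pow₀ (by norm_num)
    calc (1 + x) ^ (t + 1) = (1 + x) ^ t * (1 + x) := pow_succ _ _
      _ ≤ (1 + (2 ^ t - 1) * x) * (1 + x) := mul_le_mul_of_nonneg_right ih (by linarith)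
      _ ≤ 1 + (2 ^ (t + 1) - 1) * x := by
        rw [pow_succ]
        nlinarith [mul_nonneg (mul_nonneg (sub_nonneg.2 h2) h0) (sub_nonneg.2 h1)]

/-- `∏_{t < p ≤ Y} (1 - rho(p)/p)^{-1} ≥ ∏_{t<p≤Y} (1-1/p)^{-rho(p)} ≥ c (log Y)^t ∏_{p ∣ some difference} (1-1/p)^t`, `∏_{p ≤ Y} (1-1/p)^{-1} ≥ log Y`, `(1-1/p)^{-t} ≤ 1 + M/p`. -/
theorem prod_lower (t : ℕ) (ht : 1 ≤ t) : ∃ (c : ℝ) (M : ℕ), 0 < c ∧ ∀ (S : Finset ℕ) (_ : S.card = t) (Y : ℕ) (_ : 2 ≤ Y),
    c * (Real.log Y) ^ t ≤ (∏ p ∈ sprimes t Y, (1 - (rho S p : ℝ) / p)⁻¹) * ∏ q ∈ (S ×ˢ S).filter (fun q => q.1 < q.2), Gs M (q.2 - q.1) := by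
  classical
  have hinv : ∀ p : ℕ, p.Prime → 1 ≤ (1 - 1 / (p : ℝ))⁻¹ := by
    intro p hp
    have h2 : (2 : ℝ) ≤ p := by exact_mod_cast hp.two_le
    have h3 : 0 < 1 - 1 / (p : ℝ) := by
      rw [sub_pos, div_lt_one (by linarith)]
      linarith
    rw [one_le_inv₀ h3]
    have : 0 ≤ 1 / (p : ℝ) := by positivity
    linarith
  set C0 : ℝ := ∏ p ∈ (range (t + 1)).filter Nat.Prime, (1 - 1 / (p : ℝ))⁻¹ with hC0
  have hC01 : 1 ≤ C0 := rank_one_le _ _ fun p hp => hinv p (mem_filter.1 hp).2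
  have hC0t : 0 < C0 ^ t := by positivity
  refine ⟨(C0 ^ t)⁻¹, 2 ^ (t + 1), by positivity, ?_⟩
  intro S hS Y hY
  have hY2 : (2 : ℝ) ≤ Y := by exact_mod_cast hY
  have hlY : 0 < Real.log Y := Real.log_pos (by linarith)
  have hsp : ∀ p ∈ sprimes t Y, p.Prime ∧ t < p ∧ p ≤ Y := by
    intro p hp
    unfold sprimes at hp
    rw [mem_filter, mem_Ioc] at hp
    exact ⟨hp.2, hp.1.1, hp.1.2⟩
  -- the Mertens product
  have h1 : Real.log Y ≤ (∏ p ∈ sprimes t Y, (1 - 1 / (p : ℝ))⁻¹) * C0 := by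
    have hV := Pool.Agent.Lib.MP_629a14_nt.Rob.V_le (Y + 1) (by omega)
    have hVp := Pool.Agent.Lib.MP_629a14_nt.Rob.Vq_pos 1 (Y + 1)
    have hl1 : Real.log Y ≤ Real.log ((Y + 1 : ℕ) : ℝ) := by
      apply Real.log_le_log (by linarith)
      push_cast
      linarith
    have h2 : Real.log ((Y + 1 : ℕ) : ℝ) ≤
        (Pool.Agent.Lib.MP_629a14_nt.Rob.Vq 1 (Y + 1))⁻¹ := by
      rw [le_inv_comm₀ (by linarith) hVp, ← one_div]
      exact hV
    have h3 : (Pool.Agent.Lib.MP_629a14_nt.Rob.Vq 1 (Y + 1))⁻¹ =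
        ∏ p ∈ (range (Y + 1)).filter (fun p => p.Prime ∧ ¬ p ∣ 1), (1 - 1 / (p : ℝ))⁻¹ := by
      unfold Pool.Agent.Lib.MP_629a14_nt.Rob.Vq
      rw [prod_inv_distrib]
    have hdis : Disjoint (sprimes t Y) ((range (t + 1)).filter Nat.Prime) := by
      rw [Finset.disjoint_left]
      intro p hp hp'
      have h4 := (hsp p hp).2.1
      rw [mem_filter, mem_range] at hp'
      omega
    have h4 : ∏ p ∈ (range (Y + 1)).filter (fun p => p.Prime ∧ ¬ p ∣ 1), (1 - 1 / (p : ℝ))⁻¹ ≤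
        ∏ p ∈ sprimes t Y ∪ (range (t + 1)).filter Nat.Prime, (1 - 1 / (p : ℝ))⁻¹ := by
      apply rank_mono
      · intro p hp
        rw [mem_filter, mem_range] at hp
        rw [mem_union]
        by_cases h5 : p ≤ t
        · exact Or.inr (mem_filter.2 ⟨mem_range.2 (by omega), hp.2.1⟩)
        · refine Or.inl ?_
          unfold sprimes
          rw [mem_filter, mem_Ioc]
          exact ⟨⟨by omega, by omega⟩, hp.2.1⟩
      · intro p hp
        rw [mem_union] at hp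
        rcases hp with hp | hp
        · exact hinv p (hsp p hp).1
        · exact hinv p (mem_filter.1 hp).2
    rw [prod_union hdis] at h4
    rw [h3] at h2
    exact hl1.trans (h2.trans h4)
  have h2 : (C0 ^ t)⁻¹ * Real.log Y ^ t ≤ ∏ p ∈ sprimes t Y, ((1 - 1 / (p : ℝ))⁻¹) ^ t := by
    rw [prod_pow, inv_mul_le_iff₀ hC0t, ← mul_pow, mul_comm C0]
    exact pow_le_pow_left₀ hlY.le h1 t
  set pairs := (S ×ˢ S).filter (fun q => q.1 < q.2) with hpairs
  set bad := (sprimes t Y).filter (fun p => ∃ q ∈ pairs, p ∣ q.2 - q.1) with hbad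
  have h3 : ∀ p ∈ sprimes t Y, ((1 - 1 / (p : ℝ))⁻¹) ^ t ≤ (1 - (rho S p : ℝ) / p)⁻¹ *
      (if ∃ q ∈ pairs, p ∣ q.2 - q.1 then 1 + ((2 ^ (t + 1) : ℕ) : ℝ) / p else 1) := by
    intro p hp
    obtain ⟨hp1, hp2, hp3⟩ := hsp p hp
    have hp4 : (2 : ℝ) ≤ p := by exact_mod_cast hp1.two_le
    have hp0 : (0 : ℝ) < p := by linarith
    have hrho : rho S p ≤ t := hS ▸ rho_le S p
    have hr1 : (rho S p : ℝ) < p := by exact_mod_cast lt_of_le_of_lt hrho hp2
    have hr2 : 0 < 1 - (rho S p : ℝ) / p := by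
      rw [sub_pos, div_lt_one hp0]
      exact hr1
    have h5 : 0 < 1 - 1 / (p : ℝ) := by
      rw [sub_pos, div_lt_one hp0]
      linarith
    split_ifs with hq
    · have h6 : 1 ≤ (1 - (rho S p : ℝ) / p)⁻¹ := by
        rw [one_le_inv₀ hr2]
        have : 0 ≤ (rho S p : ℝ) / p := by positivity
        linarith
      have h7 : (1 - 1 / (p : ℝ))⁻¹ = 1 + 1 / ((p : ℝ) - 1) := by
        have h8 : (p : ℝ) - 1 ≠ 0 := by linarith
        have h9 : 1 - 1 / (p : ℝ) = ((p : ℝ) - 1) / p := by field_simp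
        rw [h9, inv_div]
        field_simp
        ring
      have hx0 : 0 ≤ 1 / ((p : ℝ) - 1) := by
        apply div_nonneg zero_le_one
        linarith
      have hx1 : 1 / ((p : ℝ) - 1) ≤ 1 := by
        rw [div_le_one (by linarith)]
        linarith
      have hx2 : 1 / ((p : ℝ) - 1) ≤ 2 / p := by
        rw [div_le_div_iff₀ (by linarith) hp0]
        linarith
      have h8 : ((1 - 1 / (p : ℝ))⁻¹) ^ t ≤ 1 + ((2 ^ (t + 1) : ℕ) : ℝ) / p := by
        rw [h7]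
        refine (rank_pow hx0 hx1 t).trans ?_
        have h9 : (1 : ℝ) ≤ 2 ^ t := one_le_pow₀ (by norm_num)
        have h10 : ((2 ^ (t + 1) : ℕ) : ℝ) / p = 2 ^ t * (2 / p) := by
          push_cast
          ring
        rw [h10]
        have h11 : (2 ^ t - 1) * (1 / ((p : ℝ) - 1)) ≤ 2 ^ t * (2 / p) :=
          mul_le_mul (by linarith) hx2 hx0 (by positivity)
        linarith
      exact h8.trans (le_mul_of_one_le_left (by positivity) h6)
    · have h6 : rho S p = t := by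
        rw [← hS]
        refine rho_eq S p fun q hq' hd => hq ⟨q, hq', hd⟩
      rw [h6] at hr2
      rw [h6, mul_one, inv_pow]
      apply inv_anti₀ hr2
      have h7 := one_add_mul_le_pow (a := -(1 / (p : ℝ))) (by
        have : 1 / (p : ℝ) ≤ 1 := by
          rw [div_le_one hp0]
          linarith
        linarith) t
      have h8 : 1 + (t : ℝ) * -(1 / (p : ℝ)) = 1 - (t : ℝ) / p := by ring
      have h9 : 1 + -(1 / (p : ℝ)) = 1 - 1 / (p : ℝ) := by ring
      rw [h8, h9] at h7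
      exact h7
  have h4 : ∏ p ∈ sprimes t Y, ((1 - 1 / (p : ℝ))⁻¹) ^ t ≤
      ∏ p ∈ sprimes t Y, ((1 - (rho S p : ℝ) / p)⁻¹ *
        (if ∃ q ∈ pairs, p ∣ q.2 - q.1 then 1 + ((2 ^ (t + 1) : ℕ) : ℝ) / p else 1)) := by
    apply Finset.prod_le_prod _ h3
    intro p hp
    exact pow_nonneg (zero_le_one.trans (hinv p (hsp p hp).1)) t
  rw [prod_mul_distrib, ← prod_filter] at h4
  have h5 : ∏ p ∈ (sprimes t Y).filter (fun p => ∃ q ∈ pairs, p ∣ q.2 - q.1),
      (1 + ((2 ^ (t + 1) : ℕ) : ℝ) / p) ≤ ∏ q ∈ pairs, Gs (2 ^ (t + 1)) (q.2 - q.1) := by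
    have hf : ∀ p : ℕ, (1 : ℝ) ≤ 1 + ((2 ^ (t + 1) : ℕ) : ℝ) / p := by
      intro p
      have : 0 ≤ ((2 ^ (t + 1) : ℕ) : ℝ) / p := by positivity
      linarith
    have h6 : (sprimes t Y).filter (fun p => ∃ q ∈ pairs, p ∣ q.2 - q.1) ⊆
        pairs.biUnion fun q => (q.2 - q.1).primeFactors := by
      intro p hp
      rw [mem_filter] at hp
      obtain ⟨hp1, q, hq, hd⟩ := hp
      rw [mem_biUnion]
      refine ⟨q, hq, ?_⟩
      rw [Nat.mem_primeFactors]
      have h7 := (mem_filter.1 hq).2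
      exact ⟨(hsp p hp1).1, hd, by omega⟩
    refine (rank_mono h6 (fun p : ℕ => 1 + ((2 ^ (t + 1) : ℕ) : ℝ) / p) fun p _ => hf p).trans ?_
    exact rank_biUnion pairs _ (fun p : ℕ => 1 + ((2 ^ (t + 1) : ℕ) : ℝ) / p) hf
  have h6 : 0 ≤ ∏ p ∈ sprimes t Y, (1 - (rho S p : ℝ) / p)⁻¹ := by
    refine prod_nonneg fun p hp => inv_nonneg.2 ?_
    obtain ⟨hp1, hp2, hp3⟩ := hsp p hp
    have hp0 : (0 : ℝ) < p := by exact_mod_cast hp1.pos
    have hrho : rho S p ≤ t := hS ▸ rho_le S p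
    rw [sub_nonneg, div_le_one hp0]
    exact_mod_cast (lt_of_le_of_lt hrho hp2).le
  exact h2.trans (h4.trans (mul_le_mul_of_nonneg_left h5 h6))

end Pool.Agent.Lib.MP_3e612f_nt.ZE
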