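import Pool.Agent.Lib.MP_3e612f_nt.ZE.B.Gmean
import Pool.Agent.Lib.MP_60b32f_nt.Selberg

/-! The data of the sieve for tuples of primes. -/

set_option autoImplicit false

namespace Pool.Agent.Lib.MP_3e612f_nt.ZE

open Finset MeasureTheory Filter Topology

/-- number of residue classes modulo `p` of `-S` -/
def rho (S : Finset ℕ) (p : ℕ) : ℕ := (S.image (fun s => s % p)).card

theorem rho_le (S : Finset ℕ) (p : ℕ) : rho S p ≤ S.card := card_image_le

theorem rho_pos (S : Finset ℕ) (hS : S.Nonempty) (p : ℕ) : 1 ≤ rho S p :=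
  card_pos.2 (hS.image _)

/-- all `s ∈ S` are different modulo `p` if `p` divides no difference -/
theorem rho_eq (S : Finset ℕ) (p : ℕ) (h : ∀ q ∈ (S ×ˢ S).filter (fun q => q.1 < q.2), ¬ p ∣ q.2 - q.1) : rho S p = S.card := by
  refine card_image_of_injOn fun a ha b hb hab => ?_
  have key : ∀ a ∈ S, ∀ b ∈ S, a < b → a % p = b % p → False := by
    intro a ha b hb hlt he
    exact h (a, b) (mem_filter.2 ⟨mem_product.2 ⟨ha, hb⟩, hlt⟩)
      ((Nat.modEq_iff_dvd' hlt.le).1 he)
  rcases lt_trichotomy a b with h1 | h1 | h1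
  · exact (key a ha b hb h1 hab).elim
  · exact h1
  · exact (key b hb a ha h1 hab.symm).elim

/-- the primes in `(t, Y]` -/
def sprimes (t Y : ℕ) : Finset ℕ := (Ioc t Y).filter Nat.Prime

private theorem sieveD_crt {Q₁ Q₂ : ℕ} (h₁ : 1 ≤ Q₁) (h₂ : 1 ≤ Q₂) (hcop : Nat.Coprime Q₁ Q₂)
    (Φ : ℕ → ℕ → ℕ) :
    ∑ a ∈ range (Q₁ * Q₂), Φ (a % Q₁) (a % Q₂) = ∑ a ∈ range Q₁, ∑ b ∈ range Q₂, Φ a b := by
  rw [← Finset.sum_product' (range Q₁) (range Q₂) Φ]
  have h1 : Q₁ ≠ 0 := by omega
  have h2 : Q₂ ≠ 0 := by omega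
  refine Finset.sum_nbij' (fun a => (a % Q₁, a % Q₂))
    (fun x => (Nat.chineseRemainder hcop x.1 x.2 : ℕ)) ?_ ?_ ?_ ?_ ?_
  · intro a _
    simp only [mem_product, mem_range]
    exact ⟨Nat.mod_lt _ (by omega), Nat.mod_lt _ (by omega)⟩
  · intro x _
    exact mem_range.2 (Nat.chineseRemainder_lt_mul hcop _ _ h1 h2)
  · intro a ha
    have h3 : a ≡ Nat.chineseRemainder hcop (a % Q₁) (a % Q₂) [MOD Q₁ * Q₂] :=
      Nat.chineseRemainder_modEq_unique hcop (Nat.mod_modEq a Q₁).symm (Nat.mod_modEq a Q₂).symm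
    exact (Nat.ModEq.eq_of_lt_of_lt h3 (mem_range.1 ha)
      (Nat.chineseRemainder_lt_mul hcop _ _ h1 h2)).symm
  · rintro ⟨x, y⟩ hx
    simp only [mem_product, mem_range] at hx
    have h3 := (Nat.chineseRemainder hcop x y).2
    refine Prod.ext ?_ ?_
    · show (Nat.chineseRemainder hcop x y : ℕ) % Q₁ = x
      have := h3.1
      unfold Nat.ModEq at this
      rw [this, Nat.mod_eq_of_lt hx.1]
    · show (Nat.chineseRemainder hcop x y : ℕ) % Q₂ = y
      have := h3.2
      unfold Nat.ModEq at this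
      rw [this, Nat.mod_eq_of_lt hx.2]
  · intro a _
    rfl

private theorem sieveD_dvd_mod (S : Finset ℕ) (d m : ℕ) :
    d ∣ ∏ s ∈ S, (m % d + s) ↔ d ∣ ∏ s ∈ S, (m + s) := by
  have h : ∏ s ∈ S, (m % d + s) ≡ ∏ s ∈ S, (m + s) [MOD d] :=
    Nat.ModEq.prod fun s _ => (Nat.mod_modEq m d).add_right s
  rw [← Nat.modEq_zero_iff_dvd, ← Nat.modEq_zero_iff_dvd]
  exact ⟨fun h1 => h.symm.trans h1, fun h1 => h.trans h1⟩

/-- the residue classes -/
private def sieveDR (S : Finset ℕ) (d : ℕ) : Finset ℕ :=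
  (range d).filter fun r => d ∣ ∏ s ∈ S, (r + s)

private theorem sieveDR_mul (S : Finset ℕ) {a b : ℕ} (ha : 1 ≤ a) (hb : 1 ≤ b)
    (hab : Nat.Coprime a b) :
    (sieveDR S (a * b)).card = (sieveDR S a).card * (sieveDR S b).card := by
  unfold sieveDR
  simp only [card_filter]
  have h1 : ∀ r, (if a * b ∣ ∏ s ∈ S, (r + s) then 1 else 0) =
      (fun x y => (if a ∣ ∏ s ∈ S, (x + s) then 1 else 0) *
        (if b ∣ ∏ s ∈ S, (y + s) then 1 else 0)) (r % a) (r % b) := by
    intro r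
    simp only [sieveD_dvd_mod]
    by_cases h2 : a ∣ ∏ s ∈ S, (r + s)
    · by_cases h3 : b ∣ ∏ s ∈ S, (r + s)
      · rw [if_pos (hab.mul_dvd_of_dvd_of_dvd h2 h3), if_pos h2, if_pos h3]
      · rw [if_neg fun h => h3 (dvd_of_mul_left_dvd h), if_pos h2, if_neg h3]
    · rw [if_neg fun h => h2 (dvd_of_mul_right_dvd h), if_neg h2, zero_mul]
  rw [sum_congr rfl fun r _ => h1 r, sum_mul_sum]
  exact sieveD_crt ha hb hab (fun x y => (if a ∣ ∏ s ∈ S, (x + s) then 1 else 0) *
        (if b ∣ ∏ s ∈ S, (y + s) then 1 else 0))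

private theorem sieveDR_prime (S : Finset ℕ) {p : ℕ} (hp : p.Prime) :
    (sieveDR S p).card = rho S p := by
  have hp0 : 0 < p := hp.pos
  have h1 : sieveDR S p = (S.image (fun s => s % p)).image (fun t => (p - t) % p) := by
    ext r
    unfold sieveDR
    rw [mem_filter, mem_range, image_image, mem_image]
    constructor
    · rintro ⟨hr, hd⟩
      obtain ⟨s, hs, hps⟩ := (hp.prime.dvd_finsetProd_iff _).1 hd
      refine ⟨s, hs, ?_⟩
      show (p - s % p) % p = r
      have h2 : s % p < p := Nat.mod_lt _ hp0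
      have h3 : p ∣ r + s % p := by
        have h4 : r + s % p ≡ r + s [MOD p] := (Nat.mod_modEq s p).add_left r
        exact (Nat.modEq_zero_iff_dvd).1 (h4.trans ((Nat.modEq_zero_iff_dvd).2 hps))
      obtain ⟨k, hk⟩ := h3
      have h5 : k = 0 ∨ k = 1 := by
        have h6 : p * k < p * 2 := by omega
        have h7 : k < 2 := Nat.lt_of_mul_lt_mul_left h6
        omega
      rcases h5 with rfl | rfl
      · have h8 : r = 0 ∧ s % p = 0 := by omega
        rw [h8.1, h8.2, Nat.sub_zero, Nat.mod_self]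
      · have h8 : p - s % p = r := by omega
        rw [h8, Nat.mod_eq_of_lt hr]
    · rintro ⟨s, hs, h2⟩
      have h2' : (p - s % p) % p = r := h2
      refine ⟨by rw [← h2']; exact Nat.mod_lt _ hp0, ?_⟩
      refine dvd_trans ?_ (dvd_prod_of_mem _ hs)
      have h3 : s % p < p := Nat.mod_lt _ hp0
      have h4 : r + s ≡ (p - s % p) + s % p [MOD p] := by
        rw [← h2']
        exact (Nat.mod_modEq _ _).add (Nat.mod_modEq s p).symm
      rw [Nat.sub_add_cancel h3.le] at h4
      exact (Nat.modEq_zero_iff_dvd).1 (h4.trans (by simp [Nat.ModEq]))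
  rw [h1, rho]
  refine card_image_of_injOn ?_
  intro a ha b hb hab
  rw [mem_coe, mem_image] at ha hb
  obtain ⟨s, _, rfl⟩ := ha
  obtain ⟨t, _, rfl⟩ := hb
  have h2 : s % p < p := Nat.mod_lt _ hp0
  have h3 : t % p < p := Nat.mod_lt _ hp0
  have h4 : (p - s % p) % p = (p - t % p) % p := hab
  show s % p = t % p
  rcases Nat.eq_zero_or_pos (s % p) with h5 | h5 <;> rcases Nat.eq_zero_or_pos (t % p) with h6 | h6
  · rw [h5, h6]
  · rw [h5, Nat.sub_zero, Nat.mod_self, Nat.mod_eq_of_lt (by omega : p - t % p < p)] at h4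
    omega
  · rw [h6, Nat.sub_zero, Nat.mod_self, Nat.mod_eq_of_lt (by omega : p - s % p < p)] at h4
    omega
  · rw [Nat.mod_eq_of_lt (by omega : p - s % p < p),
      Nat.mod_eq_of_lt (by omega : p - t % p < p)] at h4
    omega

private theorem sieveDR_prod (S : Finset ℕ) (T : Finset ℕ) (hT : ∀ p ∈ T, p.Prime) :
    (sieveDR S (∏ p ∈ T, p)).card = ∏ p ∈ T, rho S p := by
  induction T using Finset.induction_on with
  | empty => simp [sieveDR]
  | insert p T hp ih =>
    rw [prod_insert hp, prod_insert hp, ← ih fun q hq => hT q (mem_insert_of_mem hq),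
      ← sieveDR_prime S (hT p (mem_insert_self p T))]
    refine sieveDR_mul S (hT p (mem_insert_self p T)).one_le ?_ ?_
    · exact Nat.one_le_iff_ne_zero.2
        (prod_ne_zero_iff.2 fun q hq => (hT q (mem_insert_of_mem hq)).ne_zero)
    · refine Nat.Coprime.prod_right fun q hq => ?_
      rw [Nat.coprime_primes (hT p (mem_insert_self p T)) (hT q (mem_insert_of_mem hq))]
      rintro rfl
      exact hp hq

private theorem sieveD_class (X d c : ℕ) (hd : 0 < d) (hc : c < d) :
    |(((range X).filter (fun m => m % d = c)).card : ℝ) - (X : ℝ) / d| ≤ 1 := by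
  have h1 : ((range X).filter (fun m => m % d = c)).card =
      X / d + if c % d < X % d then 1 else 0 := by
    rw [← Nat.count_modEq_card X hd c, Nat.count_eq_card_filter_range]
    congr 1
    apply filter_congr
    intro m _
    unfold Nat.ModEq
    rw [Nat.mod_eq_of_lt hc]
  rw [h1]
  have hd' : (0 : ℝ) < d := by exact_mod_cast hd
  have h2 : (X : ℝ) = d * (X / d : ℕ) + (X % d : ℕ) := by exact_mod_cast (Nat.div_add_mod X d).symm
  have h3 : (X : ℝ) / d = (X / d : ℕ) + ((X % d : ℕ) : ℝ) / d := by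
    rw [div_eq_iff hd'.ne', add_mul, div_mul_cancel₀ _ hd'.ne', mul_comm]
    exact h2
  have h4 : 0 ≤ ((X % d : ℕ) : ℝ) / d := by positivity
  have h5 : ((X % d : ℕ) : ℝ) / d ≤ 1 := by
    rw [div_le_one hd']
    exact_mod_cast (Nat.mod_lt X hd).le
  rw [h3, abs_le]
  split_ifs <;> push_cast <;> constructor <;> linarith

/-- number of `m < X` with `d ∣ ∏_{s ∈ S} (m+s)` for squarefree `d`: Chinese remainder theorem, `rho(d) = ∏_{p ∣ d} rho(p)` classes modulo `d`, each contains `X/d + O(1)` numbers -/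
theorem count_dvd (S : Finset ℕ) (X d : ℕ) (hd : Squarefree d) :
    |(((range X).filter (fun m => d ∣ ∏ s ∈ S, (m + s))).card : ℝ) - X * ∏ p ∈ d.primeFactors, ((rho S p : ℝ) / p)| ≤ ∏ p ∈ d.primeFactors, (rho S p : ℝ) := by
  have hd0 : 0 < d := Nat.pos_of_ne_zero hd.ne_zero
  have hd' : (0 : ℝ) < d := by exact_mod_cast hd0
  have hprod : ∏ p ∈ d.primeFactors, p = d := Nat.prod_primeFactors_of_squarefree hd
  have hN : (sieveDR S d).card = ∏ p ∈ d.primeFactors, rho S p := by
    have h := sieveDR_prod S d.primeFactors fun p hp => Nat.prime_of_mem_primeFactors hp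
    rwa [hprod] at h
  have hNr : ((sieveDR S d).card : ℝ) = ∏ p ∈ d.primeFactors, (rho S p : ℝ) := by
    rw [hN]
    push_cast
    rfl
  have h1 : ((range X).filter (fun m => d ∣ ∏ s ∈ S, (m + s))).card =
      ∑ r ∈ sieveDR S d, ((range X).filter (fun m => m % d = r)).card := by
    rw [card_eq_sum_card_fiberwise (f := fun m => m % d) (t := sieveDR S d)]
    · refine sum_congr rfl fun r hr => ?_
      rw [filter_filter]
      congr 1
      apply filter_congr
      intro m _
      constructor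
      · exact fun h => h.2
      · intro h
        refine ⟨?_, h⟩
        rw [← sieveD_dvd_mod, h]
        exact (mem_filter.1 hr).2
    · intro m hm
      rw [mem_coe, mem_filter] at hm
      rw [mem_coe, sieveDR, mem_filter, mem_range]
      exact ⟨Nat.mod_lt _ hd0, (sieveD_dvd_mod S d m).2 hm.2⟩
  have h2 : (X : ℝ) * ∏ p ∈ d.primeFactors, ((rho S p : ℝ) / p) =
      ∑ r ∈ sieveDR S d, (X : ℝ) / d := by
    rw [sum_const, nsmul_eq_mul, hNr, prod_div_distrib]
    have h3 : ∏ p ∈ d.primeFactors, (p : ℝ) = d := by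
      have h4 : ((∏ p ∈ d.primeFactors, p : ℕ) : ℝ) = (d : ℝ) := by rw [hprod]
      rw [← h4]
      push_cast
      rfl
    rw [h3]
    ring
  rw [h1, h2, ← hNr]
  push_cast
  rw [← sum_sub_distrib]
  refine (abs_sum_le_sum_abs _ _).trans ?_
  calc ∑ r ∈ sieveDR S d, |(((range X).filter (fun m => m % d = r)).card : ℝ) - (X : ℝ) / d|
      ≤ ∑ r ∈ sieveDR S d, (1 : ℝ) := by
        refine sum_le_sum fun r hr => sieveD_class X d r hd0 ?_
        exact mem_range.1 (mem_filter.1 hr).1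
    _ = ((sieveDR S d).card : ℝ) := by simp

end Pool.Agent.Lib.MP_3e612f_nt.ZE
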