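import Pool.Agent.Lib.MP_3e612f_nt.ZE.B.Rank
import Pool.Agent.Lib.MP_3e612f_nt.ZE.B.Cheb
import Pool.Agent.Lib.MP_60b32f_nt.Goldbach

/-! Upper bound for the number of prime tuples (Selberg's sieve). -/

set_option autoImplicit false

namespace Pool.Agent.Lib.MP_3e612f_nt.ZE

open Finset MeasureTheory Filter Topology

private theorem tup_mem {t Y p : ℕ} (hp : p ∈ sprimes t Y) : p.Prime ∧ t < p ∧ p ≤ Y := by
  have h1 := mem_filter.1 hp
  have h2 := mem_Ioc.1 h1.1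
  exact ⟨h1.2, h2.1, h2.2⟩

private theorem tup_sqf (t Y : ℕ) : Squarefree (∏ p ∈ sprimes t Y, p) := by
  refine Finset.squarefree_prod_of_pairwise_isCoprime (fun p hp q hq hpq => ?_) ?_
  · rw [Function.onFun, ← Nat.coprime_iff_isRelPrime]
    exact (Nat.coprime_primes (tup_mem hp).1 (tup_mem hq).1).2 hpq
  · intro p hp
    exact (tup_mem hp).1.prime.squarefree

private theorem tup_dvd {t Y p : ℕ} (hp : p.Prime) :
    p ∣ (∏ p ∈ sprimes t Y, p) ↔ p ∈ sprimes t Y := by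
  constructor
  · intro h
    obtain ⟨q, hq, hpq⟩ := (hp.prime.dvd_finsetProd_iff _).1 h
    have := (Nat.prime_dvd_prime_iff_eq hp (tup_mem hq).1).1 hpq
    rw [this]; exact hq
  · intro h
    exact dvd_prod_of_mem _ h

private noncomputable def tupNu (S : Finset ℕ) : ArithmeticFunction ℝ :=
  ArithmeticFunction.prodPrimeFactors fun p => (rho S p : ℝ) / p

private theorem tupNu_mult (S : Finset ℕ) : (tupNu S).IsMultiplicative := by
  rw [ArithmeticFunction.IsMultiplicative.iff_ne_zero]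
  constructor
  · unfold tupNu
    rw [ArithmeticFunction.prodPrimeFactors_apply one_ne_zero]
    simp
  · intro a b ha hb hab
    unfold tupNu
    rw [ArithmeticFunction.prodPrimeFactors_apply (mul_ne_zero ha hb),
      ArithmeticFunction.prodPrimeFactors_apply ha, ArithmeticFunction.prodPrimeFactors_apply hb,
      hab.primeFactors_mul, Finset.prod_union hab.disjoint_primeFactors]

private theorem tupNu_prime (S : Finset ℕ) {p : ℕ} (hp : p.Prime) :
    tupNu S p = (rho S p : ℝ) / p := by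
  unfold tupNu
  rw [ArithmeticFunction.prodPrimeFactors_apply hp.ne_zero, hp.primeFactors, prod_singleton]

private noncomputable def tupS (S : Finset ℕ) (t Y X : ℕ) (hS : S.card = t) (ht : 1 ≤ t) :
    BoundingSieve where
  support := (range X).image (fun m => ∏ s ∈ S, (m + s))
  prodPrimes := ∏ p ∈ sprimes t Y, p
  prodPrimes_squarefree := tup_sqf t Y
  weights := fun v => (((range X).filter (fun m => ∏ s ∈ S, (m + s) = v)).card : ℝ)
  weights_nonneg := fun v => by positivity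
  totalMass := X
  nu := tupNu S
  nu_mult := tupNu_mult S
  nu_pos_of_prime := by
    intro p hp _
    rw [tupNu_prime S hp]
    have h1 : 1 ≤ rho S p := rho_pos S (card_pos.1 (by omega)) p
    have := hp.pos
    positivity
  nu_lt_one_of_prime := by
    intro p hp hpP
    rw [tupNu_prime S hp, div_lt_one (by exact_mod_cast hp.pos)]
    have h1 := rho_le S p
    have h2 := (tup_mem ((tup_dvd hp).1 hpP)).2.1
    exact_mod_cast (by omega : rho S p < p)

section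

variable {S : Finset ℕ} {t Y X : ℕ} (hS : S.card = t) (ht : 1 ≤ t)

private theorem tup_multSum (d : ℕ) : (tupS S t Y X hS ht).multSum d =
    (((range X).filter (fun m => d ∣ ∏ s ∈ S, (m + s))).card : ℝ) :=
  Pool.Agent.Lib.MP_60b32f_nt.fib_sum (range X) (fun m => ∏ s ∈ S, (m + s)) (fun v => d ∣ v)

private theorem tup_siftedSum : (tupS S t Y X hS ht).siftedSum =
    (((range X).filter (fun m => Nat.Coprime (∏ p ∈ sprimes t Y, p) (∏ s ∈ S, (m + s)))).card : ℝ) :=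
  Pool.Agent.Lib.MP_60b32f_nt.fib_sum (range X) (fun m => ∏ s ∈ S, (m + s))
    (fun v => Nat.Coprime (∏ p ∈ sprimes t Y, p) v)

private theorem tup_nu {d : ℕ} (hd : d ≠ 0) :
    (tupS S t Y X hS ht).nu d = ∏ p ∈ d.primeFactors, (rho S p : ℝ) / p :=
  ArithmeticFunction.prodPrimeFactors_apply hd

private theorem tup_pf {d p : ℕ} (hd : d ∣ ∏ p ∈ sprimes t Y, p) (hp : p ∈ d.primeFactors) :
    p ∈ sprimes t Y :=
  (tup_dvd (Nat.prime_of_mem_primeFactors hp)).1 ((Nat.dvd_of_mem_primeFactors hp).trans hd)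

include hS in
private theorem tup_rho_lt {p : ℕ} (hp : p ∈ sprimes t Y) : rho S p < p := by
  have h1 := rho_le S p
  have h2 := (tup_mem hp).2.1
  omega

private theorem tup_rem {d : ℕ} (hd : d ∣ ∏ p ∈ sprimes t Y, p) :
    |(tupS S t Y X hS ht).rem d| ≤ (d : ℝ) := by
  have hsq : Squarefree d := (tup_sqf t Y).squarefree_of_dvd hd
  have h1 := count_dvd S X d hsq
  have h2 : (tupS S t Y X hS ht).rem d =
      (((range X).filter (fun m => d ∣ ∏ s ∈ S, (m + s))).card : ℝ) -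
        X * ∏ p ∈ d.primeFactors, ((rho S p : ℝ) / p) := by
    unfold BoundingSieve.rem
    rw [tup_multSum, tup_nu hS ht hsq.ne_zero]
    change _ - _ * (X : ℝ) = _
    ring
  rw [h2]
  refine h1.trans ?_
  calc ∏ p ∈ d.primeFactors, (rho S p : ℝ) ≤ ∏ p ∈ d.primeFactors, (p : ℝ) :=
        prod_le_prod (fun _ _ => by positivity) fun p hp => by
          exact_mod_cast (tup_rho_lt hS (tup_pf hd hp)).le
    _ = (d : ℝ) := by
        rw [← Nat.cast_prod, Nat.prod_primeFactors_of_squarefree hsq]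

private theorem tup_inv_nu {d : ℕ} (hd : d ∣ ∏ p ∈ sprimes t Y, p) :
    ((tupS S t Y X hS ht).nu d)⁻¹ ≤ (d : ℝ) := by
  have hsq : Squarefree d := (tup_sqf t Y).squarefree_of_dvd hd
  rw [tup_nu hS ht hsq.ne_zero, ← prod_inv_distrib]
  calc ∏ p ∈ d.primeFactors, ((rho S p : ℝ) / p)⁻¹ ≤ ∏ p ∈ d.primeFactors, (p : ℝ) := by
        refine prod_le_prod (fun _ _ => by positivity) fun p _ => ?_
        rw [inv_div]
        have h1 : (1 : ℝ) ≤ rho S p := by
          exact_mod_cast rho_pos S (card_pos.1 (by omega)) p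
        exact div_le_self (by positivity) h1
    _ = (d : ℝ) := by
        rw [← Nat.cast_prod, Nat.prod_primeFactors_of_squarefree hsq]

open Pool.Agent.Lib.MP_60b32f_nt in
private theorem tup_lev {z l : ℕ} (hl : l ∈ lev (tupS S t Y X hS ht) z) :
    l ∣ (∏ p ∈ sprimes t Y, p) ∧ l ≤ z ∧ 0 < l := by
  obtain ⟨h1, h2⟩ := mem_lev.1 hl
  exact ⟨h1, h2, Nat.pos_of_ne_zero ((tup_sqf t Y).squarefree_of_dvd h1).ne_zero⟩

open Pool.Agent.Lib.MP_60b32f_nt in
private theorem tup_lev_card (z : ℕ) : (lev (tupS S t Y X hS ht) z).card ≤ z := by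
  have : lev (tupS S t Y X hS ht) z ⊆ Icc 1 z := by
    intro l hl
    obtain ⟨_, h2, h3⟩ := tup_lev hS ht hl
    exact mem_Icc.2 ⟨h3, h2⟩
  have h := card_le_card this
  simpa using h

open Pool.Agent.Lib.MP_60b32f_nt in
private theorem tup_err (z : ℕ) :
    ∑ d1 ∈ lev (tupS S t Y X hS ht) z, ∑ d2 ∈ lev (tupS S t Y X hS ht) z,
      ((tupS S t Y X hS ht).nu d1)⁻¹ * ((tupS S t Y X hS ht).nu d2)⁻¹ *
        |(tupS S t Y X hS ht).rem (d1.lcm d2)| ≤ (z : ℝ) ^ 6 := by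
  have hterm : ∀ d1 ∈ lev (tupS S t Y X hS ht) z, ∀ d2 ∈ lev (tupS S t Y X hS ht) z,
      ((tupS S t Y X hS ht).nu d1)⁻¹ * ((tupS S t Y X hS ht).nu d2)⁻¹ *
        |(tupS S t Y X hS ht).rem (d1.lcm d2)| ≤ (z : ℝ) ^ 4 := by
    intro d1 h1 d2 h2
    obtain ⟨a1, a2, a3⟩ := tup_lev hS ht h1
    obtain ⟨b1, b2, b3⟩ := tup_lev hS ht h2
    have ha : ((tupS S t Y X hS ht).nu d1)⁻¹ ≤ (z : ℝ) :=
      (tup_inv_nu hS ht a1).trans (by exact_mod_cast a2)
    have hb : ((tupS S t Y X hS ht).nu d2)⁻¹ ≤ (z : ℝ) :=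
      (tup_inv_nu hS ht b1).trans (by exact_mod_cast b2)
    have hr := tup_rem hS ht (X := X) (Nat.lcm_dvd a1 b1)
    have hc : ((d1.lcm d2 : ℕ) : ℝ) ≤ (z : ℝ) * z := by
      have h4 : d1.lcm d2 ≤ d1 * d2 := Nat.le_of_dvd (Nat.mul_pos a3 b3) (Nat.lcm_dvd_mul _ _)
      have h5 : d1 * d2 ≤ z * z := Nat.mul_le_mul a2 b2
      exact_mod_cast h4.trans h5
    have hn1 : 0 ≤ ((tupS S t Y X hS ht).nu d1)⁻¹ :=
      (inv_pos.2 (BoundingSieve.nu_pos_of_dvd_prodPrimes (mem_lev.1 h1).1)).le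
    have hn2 : 0 ≤ ((tupS S t Y X hS ht).nu d2)⁻¹ :=
      (inv_pos.2 (BoundingSieve.nu_pos_of_dvd_prodPrimes (mem_lev.1 h2).1)).le
    calc ((tupS S t Y X hS ht).nu d1)⁻¹ * ((tupS S t Y X hS ht).nu d2)⁻¹ *
          |(tupS S t Y X hS ht).rem (d1.lcm d2)|
        ≤ (z : ℝ) * z * ((z : ℝ) * z) := by
          gcongr
          exact hr.trans hc
      _ = (z : ℝ) ^ 4 := by ring
  have hcard : ((lev (tupS S t Y X hS ht) z).card : ℝ) ≤ z := by
    exact_mod_cast tup_lev_card hS ht z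
  calc ∑ d1 ∈ lev (tupS S t Y X hS ht) z, ∑ d2 ∈ lev (tupS S t Y X hS ht) z,
      ((tupS S t Y X hS ht).nu d1)⁻¹ * ((tupS S t Y X hS ht).nu d2)⁻¹ *
        |(tupS S t Y X hS ht).rem (d1.lcm d2)|
      ≤ ∑ d1 ∈ lev (tupS S t Y X hS ht) z, ∑ d2 ∈ lev (tupS S t Y X hS ht) z, (z : ℝ) ^ 4 :=
        sum_le_sum fun d1 h1 => sum_le_sum fun d2 h2 => hterm d1 h1 d2 h2
    _ = ((lev (tupS S t Y X hS ht) z).card : ℝ) *
          (((lev (tupS S t Y X hS ht) z).card : ℝ) * (z : ℝ) ^ 4) := by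
        simp [sum_const, nsmul_eq_mul]
    _ ≤ (z : ℝ) * ((z : ℝ) * (z : ℝ) ^ 4) := by gcongr
    _ = (z : ℝ) ^ 6 := by ring

/-- the terms of Selberg's sum -/
private theorem tup_terms {l : ℕ} (hl : l ∣ ∏ p ∈ sprimes t Y, p) :
    (tupS S t Y X hS ht).selbergTerms l =
      ∏ p ∈ l.primeFactors, ((rho S p : ℝ) / p * (1 - (rho S p : ℝ) / p)⁻¹) := by
  have hsq : Squarefree l := (tup_sqf t Y).squarefree_of_dvd hl
  rw [BoundingSieve.selbergTerms_apply, tup_nu hS ht hsq.ne_zero, prod_mul_distrib]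
  congr 1
  refine prod_congr rfl fun p hp => ?_
  have h1 := Nat.prime_of_mem_primeFactors hp
  have h2 : (tupS S t Y X hS ht).nu p = (rho S p : ℝ) / p := tupNu_prime S h1
  rw [h2]

end

open Pool.Agent.Lib.MP_60b32f_nt in
/-- the sieve bound, uniformly in all parameters -/
private theorem tup_main (t : ℕ) (ht : 1 ≤ t) : ∃ s : ℕ, 1 ≤ s ∧ ∀ (S : Finset ℕ) (_ : S.card = t)
    (X Y : ℕ) (_ : 2 ≤ Y),
    (((range X).filter (fun m => Nat.Coprime (∏ p ∈ sprimes t Y, p)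
      (∏ s ∈ S, (m + s)))).card : ℝ) ≤
      X * (2 * (∏ p ∈ sprimes t Y, (1 - (rho S p : ℝ) / p)⁻¹)⁻¹) + ((Y : ℝ) ^ s) ^ 6 := by
  have hT : (0 : ℝ) < (t : ℝ) * (t + 1) := by
    have : (0 : ℝ) < t := by exact_mod_cast ht
    positivity
  obtain ⟨s, hs1, hs⟩ := rankin_t ((t : ℝ) * (t + 1)) hT
  refine ⟨s, hs1, fun S hS X Y hY => ?_⟩
  have hz : 1 ≤ Y ^ s := Nat.one_le_pow _ _ (by omega)
  have h1 := selberg_bound (tupS S t Y X hS ht) (Y ^ s) hz
  have h2 := tup_err hS ht (X := X) (Y := Y) (Y ^ s)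
  rw [tup_siftedSum] at h1
  have hmass : (tupS S t Y X hS ht).totalMass = (X : ℝ) := rfl
  rw [hmass] at h1
  -- the terms
  have hlt : ∀ p ∈ sprimes t Y, (rho S p : ℝ) / p < 1 := by
    intro p hp
    rw [div_lt_one (by exact_mod_cast (tup_mem hp).1.pos)]
    exact_mod_cast tup_rho_lt hS hp
  have hg : ∀ p ∈ sprimes t Y, 0 ≤ (rho S p : ℝ) / p * (1 - (rho S p : ℝ) / p)⁻¹ ∧
      (rho S p : ℝ) / p * (1 - (rho S p : ℝ) / p)⁻¹ ≤ (t : ℝ) * (t + 1) / p := by
    intro p hp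
    obtain ⟨hpp, htp, hpY⟩ := tup_mem hp
    have hp0 : (0 : ℝ) < p := by exact_mod_cast hpp.pos
    have h3 := hlt p hp
    have h4 : 0 < 1 - (rho S p : ℝ) / p := by linarith
    refine ⟨by positivity, ?_⟩
    have hr : (rho S p : ℝ) ≤ t := by
      have := rho_le S p
      rw [hS] at this
      exact_mod_cast this
    have hpt : (t : ℝ) + 1 ≤ p := by exact_mod_cast htp
    have e : (rho S p : ℝ) / p * (1 - (rho S p : ℝ) / p)⁻¹ = (rho S p : ℝ) / (p - rho S p) := by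
      have h5 : (p : ℝ) - rho S p ≠ 0 := by
        intro h6
        have h7 : (rho S p : ℝ) / p = 1 := by
          rw [div_eq_one_iff_eq hp0.ne']
          linarith
        linarith
      have h8 : 1 - (rho S p : ℝ) / p = (p - rho S p) / p := by
        rw [sub_div, div_self hp0.ne']
      rw [h8, inv_div]
      field_simp
    have ht0 : (0 : ℝ) ≤ t := Nat.cast_nonneg t
    have hr0 : (0 : ℝ) ≤ rho S p := Nat.cast_nonneg _
    rw [e, div_le_div_iff₀ (by linarith) hp0]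
    nlinarith [mul_nonneg ht0 (sub_nonneg.2 hpt), mul_nonneg hr0 (sub_nonneg.2 hpt),
      mul_nonneg (sub_nonneg.2 hr) hp0.le, mul_nonneg (sub_nonneg.2 hr) ht0,
      mul_nonneg (mul_nonneg ht0 (sub_nonneg.2 hr)) (by linarith : (0 : ℝ) ≤ t + 1)]
  have h3 := hs Y hY (sprimes t Y) (fun p hp => ⟨(tup_mem hp).1, (tup_mem hp).2.2⟩)
    (fun p => (rho S p : ℝ) / p * (1 - (rho S p : ℝ) / p)⁻¹) hg
  have hJ : bigJ (tupS S t Y X hS ht) (Y ^ s) =
      ∑ l ∈ (∏ p ∈ sprimes t Y, p).divisors.filter (fun l => l ≤ Y ^ s),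
        ∏ p ∈ l.primeFactors, ((rho S p : ℝ) / p * (1 - (rho S p : ℝ) / p)⁻¹) := by
    unfold bigJ lev
    refine sum_congr rfl fun l hl => ?_
    exact tup_terms hS ht (Nat.dvd_of_mem_divisors (mem_filter.1 hl).1)
  have hone : ∏ p ∈ sprimes t Y, (1 + (rho S p : ℝ) / p * (1 - (rho S p : ℝ) / p)⁻¹) =
      ∏ p ∈ sprimes t Y, (1 - (rho S p : ℝ) / p)⁻¹ := by
    refine prod_congr rfl fun p hp => ?_
    have h4 : 1 - (rho S p : ℝ) / p ≠ 0 := by
      have := hlt p hp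
      intro h5
      linarith
    field_simp
    ring
  rw [hone, ← hJ] at h3
  have hprod : 0 < ∏ p ∈ sprimes t Y, (1 - (rho S p : ℝ) / p)⁻¹ :=
    prod_pos fun p hp => inv_pos.2 (by have := hlt p hp; linarith)
  have hJinv : (bigJ (tupS S t Y X hS ht) (Y ^ s))⁻¹ ≤
      2 * (∏ p ∈ sprimes t Y, (1 - (rho S p : ℝ) / p)⁻¹)⁻¹ := by
    have h4 : (bigJ (tupS S t Y X hS ht) (Y ^ s))⁻¹ ≤
        ((∏ p ∈ sprimes t Y, (1 - (rho S p : ℝ) / p)⁻¹) / 2)⁻¹ :=
      inv_anti₀ (by positivity) h3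
    refine h4.trans (le_of_eq ?_)
    rw [inv_div]
    ring
  have h5 : (X : ℝ) * (bigJ (tupS S t Y X hS ht) (Y ^ s))⁻¹ ≤
      X * (2 * (∏ p ∈ sprimes t Y, (1 - (rho S p : ℝ) / p)⁻¹)⁻¹) :=
    mul_le_mul_of_nonneg_left hJinv (Nat.cast_nonneg X)
  have h6 : (((Y ^ s : ℕ) : ℝ)) ^ 6 = ((Y : ℝ) ^ s) ^ 6 := by push_cast; rfl
  rw [h6] at h2
  linarith

/-- `MP_60b32f_nt.selberg_bound` for the `BoundingSieve` with support the values `∏_{s∈S} (m+s)`, `m < X = 4P+1` (the map `m ↦ ∏ (m+s)` is injective; see `MP_629a14_nt/Ck/SieveD.lean`, `MP_60b32f_nt/Goldbach.lean` for the construction of such a sieve), weights 1, `totalMass = X`, `prodPrimes = ∏ p ∈ sprimes t Y`, `ν(p) = rho(p)/p < 1`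
(`rho(p) ≤ t < p`), `|rem d| ≤ ∏ rho(p) ≤ d` (`count_dvd`), level `R = Y^s` with `s` of `rankin_t` (`g(p) = ν/(1-ν) ≤ (t(t+1))/p` because `p ≥ t+1`): sifted sum `≤ X/J + R^6`, `J ≥ (1/2) ∏ (1-ν(p))^{-1}`; `Y = ⌊P^{1/(12 s)}⌋`. If `m + s ∈ PP P` for all `s` then `∏ (m+s)` is coprime to all primes `≤ Y ≤ P`. -/
theorem tuple_count (t : ℕ) (ht : 1 ≤ t) : ∃ (C : ℝ) (M P₀ : ℕ), 0 < C ∧ ∀ P ≥ P₀, ∀ S : Finset ℕ, S.card = t →
    (((range (4 * P + 1)).filter (fun m => ∀ s ∈ S, m + s ∈ PP P)).card : ℝ) ≤ C * P / (Real.log P) ^ t * ∏ q ∈ (S ×ˢ S).filter (fun q => q.1 < q.2), Gs M (q.2 - q.1) := by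
  obtain ⟨s, hs1, hmain⟩ := tup_main t ht
  obtain ⟨c, M, hc, hlow⟩ := prod_lower t ht
  have ht0 : (0 : ℝ) < t := by exact_mod_cast ht
  refine ⟨10 * (24 * s) ^ t / c + (2 * t) ^ t, M, 2 ^ (12 * s), by positivity, fun P hP S hS => ?_⟩
  -- the parameter `Y`
  obtain ⟨Y, hY1, hY2⟩ : ∃ Y : ℕ, Y ^ (12 * s) ≤ P ∧ P < (Y + 1) ^ (12 * s) := by
    have h12 : 12 * s ≠ 0 := by omega
    refine ⟨Nat.findGreatest (fun y => y ^ (12 * s) ≤ P) P, ?_, ?_⟩
    · exact Nat.findGreatest_spec (P := fun y => y ^ (12 * s) ≤ P) (Nat.zero_le P)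
        (by rw [zero_pow h12]; exact Nat.zero_le P)
    · by_contra h
      have h1 : (Nat.findGreatest (fun y => y ^ (12 * s) ≤ P) P + 1) ^ (12 * s) ≤ P := not_lt.1 h
      have h2 : Nat.findGreatest (fun y => y ^ (12 * s) ≤ P) P + 1 ≤ P :=
        (Nat.le_self_pow h12 _).trans h1
      exact Nat.findGreatest_is_greatest (Nat.lt_succ_self _) h2 h1
  have hY : 2 ≤ Y := by
    by_contra h
    have h1 : Y + 1 ≤ 2 := by omega
    exact absurd hY2 (not_lt.2 ((Nat.pow_le_pow_left h1 _).trans hP))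
  have hP1 : 1 < P := lt_of_lt_of_le (Nat.one_lt_two_pow (by omega)) hP
  have hPr : (1 : ℝ) < P := by exact_mod_cast hP1
  have hP0 : (0 : ℝ) < P := by linarith
  have hlogP : 0 < Real.log P := Real.log_pos hPr
  have hYP : Y ≤ P := (Nat.le_self_pow (by omega) _).trans hY1
  have hYr : (2 : ℝ) ≤ Y := by exact_mod_cast hY
  have hY0 : (0 : ℝ) < Y := by linarith
  have hs0 : (0 : ℝ) < s := by exact_mod_cast hs1
  -- `log P ≤ 24 s log Y`
  have hlogY : Real.log P ≤ 24 * s * Real.log Y := by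
    have h1 : Real.log P ≤ Real.log (((Y : ℝ) + 1) ^ (12 * s)) :=
      Real.log_le_log hP0 (by exact_mod_cast hY2.le)
    rw [Real.log_pow] at h1
    have h2 : Real.log ((Y : ℝ) + 1) ≤ 2 * Real.log Y := by
      have h3 : Real.log ((Y : ℝ) + 1) ≤ Real.log ((Y : ℝ) ^ 2) :=
        Real.log_le_log (by linarith) (by nlinarith)
      rw [Real.log_pow] at h3
      exact_mod_cast h3
    push_cast at h1
    calc Real.log P ≤ 12 * s * Real.log ((Y : ℝ) + 1) := h1
      _ ≤ 12 * s * (2 * Real.log Y) := mul_le_mul_of_nonneg_left h2 (by positivity)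
      _ = 24 * s * Real.log Y := by ring
  have hlogY0 : 0 < Real.log Y := Real.log_pos (by linarith)
  -- inclusion
  have hsub : (range (4 * P + 1)).filter (fun m => ∀ s ∈ S, m + s ∈ PP P) ⊆
      (range (4 * P + 1)).filter (fun m => Nat.Coprime (∏ p ∈ sprimes t Y, p)
        (∏ s ∈ S, (m + s))) := by
    intro m hm
    obtain ⟨h1, h2⟩ := mem_filter.1 hm
    refine mem_filter.2 ⟨h1, ?_⟩
    refine Nat.Coprime.prod_left fun p hp => Nat.Coprime.prod_right fun r hr => ?_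
    obtain ⟨a1, a2, a3⟩ := tup_mem hp
    have h3 := mem_filter.1 (h2 r hr)
    have h4 := mem_Ioc.1 h3.1
    exact (Nat.coprime_primes a1 h3.2).2 (by omega)
  have h1 : (((range (4 * P + 1)).filter (fun m => ∀ s ∈ S, m + s ∈ PP P)).card : ℝ) ≤
      (((range (4 * P + 1)).filter (fun m => Nat.Coprime (∏ p ∈ sprimes t Y, p)
        (∏ s ∈ S, (m + s)))).card : ℝ) := by
    exact_mod_cast card_le_card hsub
  have h2 := hmain S hS (4 * P + 1) Y hY
  have h3 := hlow S hS Y hY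
  set G : ℝ := ∏ q ∈ (S ×ˢ S).filter (fun q => q.1 < q.2), Gs M (q.2 - q.1) with hG
  have hG1 : 1 ≤ G := by
    rw [hG]
    calc (1 : ℝ) = ∏ q ∈ (S ×ˢ S).filter (fun q => q.1 < q.2), (1 : ℝ) := by simp
      _ ≤ _ := prod_le_prod (fun _ _ => by norm_num) fun q _ => one_le_Gs M _
  set Q : ℝ := ∏ p ∈ sprimes t Y, (1 - (rho S p : ℝ) / p)⁻¹ with hQ
  have hcl : 0 < c * Real.log Y ^ t := by positivity
  have hQ0 : 0 < Q := by
    by_contra h
    have : Q * G ≤ 0 := mul_nonpos_of_nonpos_of_nonneg (not_lt.1 h) (by linarith)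
    linarith
  -- main term
  have hinv : Q⁻¹ ≤ G * (24 * s) ^ t / (c * Real.log P ^ t) := by
    have h4 : Real.log P ^ t ≤ (24 * s) ^ t * Real.log Y ^ t := by
      rw [← mul_pow]
      exact pow_le_pow_left₀ hlogP.le hlogY t
    rw [inv_eq_one_div, div_le_div_iff₀ hQ0 (by positivity)]
    calc 1 * (c * Real.log P ^ t) ≤ c * ((24 * s) ^ t * Real.log Y ^ t) := by
          rw [one_mul]
          exact mul_le_mul_of_nonneg_left h4 hc.le
      _ = (24 * s) ^ t * (c * Real.log Y ^ t) := by ring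
      _ ≤ (24 * s) ^ t * (Q * G) := mul_le_mul_of_nonneg_left h3 (by positivity)
      _ = G * (24 * s) ^ t * Q := by ring
  have hmainT : ((4 * P + 1 : ℕ) : ℝ) * (2 * Q⁻¹) ≤
      10 * (24 * s) ^ t / c * P / Real.log P ^ t * G := by
    have h5 : ((4 * P + 1 : ℕ) : ℝ) ≤ 5 * P := by
      push_cast
      linarith
    calc ((4 * P + 1 : ℕ) : ℝ) * (2 * Q⁻¹) ≤
          (5 * P) * (2 * (G * (24 * s) ^ t / (c * Real.log P ^ t))) := by
          gcongr
      _ = 10 * (24 * s) ^ t / c * P / Real.log P ^ t * G := by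
          field_simp
          ring
  -- error term
  have herr : ((Y : ℝ) ^ s) ^ 6 ≤ (2 * t) ^ t * P / Real.log P ^ t := by
    have h4 : ((Y : ℝ) ^ s) ^ 6 ≤ √P := by
      refine Real.le_sqrt_of_sq_le ?_
      have h6 : (((Y : ℝ) ^ s) ^ 6) ^ 2 = (Y : ℝ) ^ (12 * s) := by
        rw [← pow_mul, ← pow_mul]
        congr 1
        ring
      rw [h6]
      exact_mod_cast hY1
    have h5 : Real.log P ^ t ≤ (2 * t) ^ t * √P := by
      have h6 : Real.log P ≤ (2 * t) * (P : ℝ) ^ (1 / (2 * t) : ℝ) := by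
        have h7 := Real.log_le_rpow_div hP0.le (show (0 : ℝ) < 1 / (2 * t) by positivity)
        rw [div_div_eq_mul_div, div_one, mul_comm] at h7
        exact h7
      calc Real.log P ^ t ≤ ((2 * t) * (P : ℝ) ^ (1 / (2 * t) : ℝ)) ^ t :=
            pow_le_pow_left₀ hlogP.le h6 t
        _ = (2 * t) ^ t * √P := by
            rw [mul_pow, ← Real.rpow_natCast ((P : ℝ) ^ (1 / (2 * t) : ℝ)) t,
              ← Real.rpow_mul hP0.le, Real.sqrt_eq_rpow]
            congr 2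
            field_simp
    rw [le_div_iff₀ (by positivity)]
    calc ((Y : ℝ) ^ s) ^ 6 * Real.log P ^ t ≤ √P * ((2 * t) ^ t * √P) := by
          gcongr
      _ = (2 * t) ^ t * (√P * √P) := by ring
      _ = (2 * t) ^ t * P := by rw [Real.mul_self_sqrt hP0.le]
  have herrG : (2 * (t : ℝ)) ^ t * P / Real.log P ^ t ≤ (2 * t) ^ t * P / Real.log P ^ t * G :=
    le_mul_of_one_le_right (by positivity) hG1
  calc (((range (4 * P + 1)).filter (fun m => ∀ s ∈ S, m + s ∈ PP P)).card : ℝ)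
      ≤ 10 * (24 * s) ^ t / c * P / Real.log P ^ t * G + (2 * t) ^ t * P / Real.log P ^ t * G := by
        linarith
    _ = (10 * (24 * s) ^ t / c + (2 * t) ^ t) * P / Real.log P ^ t * G := by ring

end Pool.Agent.Lib.MP_3e612f_nt.ZE
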